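import Pool.Agent.R91.FA.Vec

/-!
The lower bound: maps from `L¹` back.
-/

set_option autoImplicit false
set_option linter.unusedSectionVars false

namespace Pool.Agent.R91.FA

open Set Filter Topology MeasureTheory

section coef

variable {Z : Type} [mZ : MeasurableSpace Z] {μ : Measure Z}
variable {E : Type*} [NormedAddCommGroup E] [NormedSpace ℝ E]

lemma int_ind_self {S : Set Z} (hS : MeasurableSet S) (hμ : μ S ≠ ⊤) :
    ∫ x in S, (ind μ S : Z → ℝ) x ∂μ = μ.real S := by
  rw [integral_congr_ae (ae_restrict_of_ae (ind_coe hS hμ)), setIntegral_indicator hS, inter_self,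
    setIntegral_const, smul_eq_mul, mul_one]

lemma int_ind_disj {S T : Set Z} (hT : MeasurableSet T) (hμ : μ T ≠ ⊤) (hd : Disjoint S T) :
    ∫ x in S, (ind μ T : Z → ℝ) x ∂μ = 0 := by
  rw [integral_congr_ae (ae_restrict_of_ae (ind_coe hT hμ)), setIntegral_indicator hT,
    Set.disjoint_iff_inter_eq_empty.1 hd, setIntegral_empty]

/-- The linear functional. -/
noncomputable def cf (μ : Measure Z) (S : Set Z) : Lp ℝ 1 μ →ₗ[ℝ] ℝ where
  toFun z := ∫ x in S, (z : Z → ℝ) x ∂μ
  map_add' f g := by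
    have hf : Integrable (f : Z → ℝ) μ := L1.integrable_coeFn f
    have hg : Integrable (g : Z → ℝ) μ := L1.integrable_coeFn g
    rw [← integral_add hf.integrableOn hg.integrableOn]
    exact integral_congr_ae (ae_restrict_of_ae (Lp.coeFn_add f g))
  map_smul' c f := by
    rw [RingHom.id_apply, smul_eq_mul, ← integral_const_mul]
    exact integral_congr_ae (ae_restrict_of_ae (Lp.coeFn_smul c f))

lemma exists_phi {ι : Type} (F : Finset ι) (S : ι → Set Z) (y : ι → E) {R : ℝ} (hR : 0 ≤ R)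
    (hm : ∀ i ∈ F, MeasurableSet (S i)) (hfin : ∀ i ∈ F, μ (S i) ≠ ⊤)
    (hpos : ∀ i ∈ F, 0 < μ.real (S i))
    (hd : ∀ i ∈ F, ∀ j ∈ F, i ≠ j → Disjoint (S i) (S j)) (hy : ∀ i ∈ F, ‖y i‖ ≤ R) :
    ∃ Φ : Lp ℝ 1 μ →ₗ[ℝ] E, (∀ z, ‖Φ z‖ ≤ R * ‖z‖) ∧
      ∀ i ∈ F, Φ ((1 / μ.real (S i)) • ind μ (S i)) = y i := by
  refine ⟨∑ i ∈ F, (cf μ (S i)).smulRight (y i), fun z => ?_, fun i hi => ?_⟩
  · rw [LinearMap.sum_apply]
    have hz : Integrable (z : Z → ℝ) μ := L1.integrable_coeFn z
    calc ‖∑ i ∈ F, ((cf μ (S i)).smulRight (y i)) z‖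
        ≤ ∑ i ∈ F, ‖((cf μ (S i)).smulRight (y i)) z‖ := norm_sum_le _ _
      _ ≤ ∑ i ∈ F, (∫ x in S i, ‖(z : Z → ℝ) x‖ ∂μ) * R := by
          refine Finset.sum_le_sum fun i hi => ?_
          rw [LinearMap.smulRight_apply, norm_smul]
          refine mul_le_mul ?_ (hy i hi) (norm_nonneg _)
            (integral_nonneg fun x => norm_nonneg _)
          exact norm_integral_le_integral_norm _
      _ = (∫ x in ⋃ i ∈ F, S i, ‖(z : Z → ℝ) x‖ ∂μ) * R := by
          rw [← Finset.sum_mul, integral_biUnion_finset F hm]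
          · intro i hi j hj hij
            exact hd i hi j hj hij
          · exact fun i _ => hz.norm.integrableOn
      _ ≤ ‖z‖ * R := by
          refine mul_le_mul_of_nonneg_right ?_ hR
          rw [L1.norm_eq_integral_norm]
          exact setIntegral_le_integral hz.norm (Eventually.of_forall fun x => norm_nonneg _)
      _ = R * ‖z‖ := mul_comm _ _
  · rw [LinearMap.sum_apply, Finset.sum_eq_single_of_mem i hi]
    · rw [LinearMap.smulRight_apply, map_smul, smul_eq_mul]
      change (1 / μ.real (S i) * ∫ x in S i, (ind μ (S i) : Z → ℝ) x ∂μ) • y i = y i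
      rw [int_ind_self (hm i hi) (hfin i hi), one_div, inv_mul_cancel₀ (hpos i hi).ne', one_smul]
    · intro j hj hji
      rw [LinearMap.smulRight_apply, map_smul, smul_eq_mul]
      change (1 / μ.real (S i) * ∫ x in S j, (ind μ (S i) : Z → ℝ) x ∂μ) • y j = 0
      rw [int_ind_disj (hm i hi) (hfin i hi) (hd j hj i hi hji), mul_zero, zero_smul]

end coef

section vectors

variable {Z : Type} [mZ : MeasurableSpace Z] (μ : Measure Z) (m : List ℕ → ℕ)
  (cell atom : List ℕ → Set Z)

/-- The vector of a cell. -/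
noncomputable def chi (v : List ℕ) : Lp ℝ 1 μ := (1 / μ.real (cell v)) • ind μ (cell v)

open Classical in
/-- The vector of an atom. -/
noncomputable def ea (v : List ℕ) : Lp ℝ 1 μ :=
  if At m v then (1 / μ.real (atom v)) • ind μ (atom v) else 0

variable {μ m cell atom} (C : CellSys m μ cell atom)
include C

lemma chi_norm (v : List ℕ) (hv : NL m v) : ‖chi μ cell v‖ ≤ 1 := by
  unfold chi
  have := C.pc v hv
  rw [norm_smul, norm_ind (C.mc v hv) (C.fc v hv), Real.norm_of_nonneg (by positivity), one_div,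
    inv_mul_cancel₀ this.ne']

lemma ea_norm (v : List ℕ) : ‖ea μ m atom v‖ ≤ 1 := by
  unfold ea
  split_ifs with hv
  · have := C.pa v hv
    rw [norm_smul, norm_ind (C.ma v hv) (C.fa v hv), Real.norm_of_nonneg (by positivity), one_div,
      inv_mul_cancel₀ this.ne']
  · rw [norm_zero]; exact zero_le_one

lemma chi_two (v : List ℕ) (hv : NL m v) (h2 : m v = 2) :
    (2 : ℝ) • chi μ cell v = chi μ cell (0 :: v) + chi μ cell (1 :: v) := by
  unfold chi
  have h0 := hv.child h2 (j := 0) (by norm_num)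
  have h1 := hv.child h2 (j := 1) (by norm_num)
  rw [C.half v hv h2 0 (by norm_num), C.half v hv h2 1 (by norm_num)]
  have hd : Disjoint (cell (0 :: v)) (cell (1 :: v)) :=
    C.dcc _ _ h0 h1 (by simp) (by simp) (Or.inl (by simp))
  have hu : ind μ (cell v) = ind μ (cell (0 :: v)) + ind μ (cell (1 :: v)) := by
    rw [C.un v hv h2]
    exact ind_union (C.mc _ h0) (C.mc _ h1) (C.fc _ h0) (C.fc _ h1) hd
  rw [hu, ← smul_add, smul_smul]
  congr 1
  have := C.pc v hv
  field_simp

lemma ea_last (v : List ℕ) (h2 : 2 ≤ m v) : ea μ m atom ((m v - 1) :: v) = 0 := by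
  unfold ea
  rw [if_neg]
  rintro ⟨_, h, _⟩
  omega

end vectors

section back

variable {E : Type*} [NormedAddCommGroup E] [NormedSpace ℝ E]

open Classical in
/-- The mirror vectors. -/
noncomputable def Ap (m : List ℕ → ℕ) (Ev : List ℕ → E) : List ℕ → E
  | [] => Ev []
  | j :: v => if m v = 2 then
      (if left m v then (if j = 0 then Ap m Ev v else Ap m Ev v + (2 : ℝ) • (Ev v - Ev (0 :: v)))
        else Ap m Ev v)
      else Ev (j :: v)

/-- The mirror atoms. -/
noncomputable def Ye (m : List ℕ → ℕ) (Ev : List ℕ → E) : List ℕ → E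
  | [] => Ev []
  | j :: v => (∑ i ∈ Finset.range (j + 1), Ev (i :: v)) - (((j + 1 : ℕ) : ℝ) * (2 / m v)) • Ev v

/-- The data of the vectors in the target. -/
structure Dat (m : List ℕ → ℕ) (Ev : List ℕ → E) : Prop where
  two : ∀ v, 2 ≤ m v
  sum : ∀ v, Ok m v → ∑ j ∈ Finset.range (m v), Ev (j :: v) = (2 : ℝ) • Ev v
  nrm : ∀ v, Ok m v → ‖Ev v‖ ≤ 2
  part : ∀ v, Ok m v → ∀ j₀ ≤ m v, ‖∑ j ∈ Finset.range j₀, Ev (j :: v)‖ ≤ 4

variable {m : List ℕ → ℕ} {Ev : List ℕ → E} (hE : Dat m Ev)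
include hE

lemma Ap_norm : ∀ v, Ok m v → (left m v → ‖Ap m Ev v‖ ≤ 2) ∧ ‖Ap m Ev v‖ ≤ 10 := by
  intro v
  induction v with
  | nil =>
    intro _
    have := hE.nrm [] trivial
    exact ⟨fun _ => this, by rw [Ap]; linarith⟩
  | cons j v ih =>
    rintro ⟨hj, hv⟩
    obtain ⟨h1, h2⟩ := ih hv
    have h3 := hE.nrm (j :: v) ⟨hj, hv⟩
    rw [Ap]
    by_cases hb : m v = 2
    · rw [if_pos hb]
      by_cases hl : left m v
      · rw [if_pos hl]
        have hj' : j = 0 ∨ j = 1 := by omega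
        rcases hj' with rfl | rfl
        · rw [if_pos rfl]; exact ⟨fun _ => h1 hl, h2⟩
        · rw [if_neg one_ne_zero]
          refine ⟨fun h => absurd h (not_left_one hb), ?_⟩
          refine (norm_add_le _ _).trans ?_
          rw [norm_smul, Real.norm_ofNat]
          have h5 := norm_sub_le (Ev v) (Ev (0 :: v))
          have h6 := hE.nrm v hv
          have h7 := hE.nrm (0 :: v) ⟨by omega, hv⟩
          have h8 := h1 hl
          linarith
      · rw [if_neg hl]
        exact ⟨fun h => absurd h (not_left_of hb hl j), h2⟩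
    · rw [if_neg hb]
      exact ⟨fun _ => h3, by linarith⟩

lemma Y_norm (v : List ℕ) (hv : Ok m v) : ‖Ev v - Ap m Ev v‖ ≤ 12 := by
  have h1 := hE.nrm v hv
  have h2 := (Ap_norm hE v hv).2
  exact (norm_sub_le _ _).trans (by linarith)

lemma Ye_norm (v : List ℕ) (hv : At m v) : ‖Ye m Ev v‖ ≤ 12 := by
  cases v with
  | nil =>
    rw [Ye]
    exact (hE.nrm [] trivial).trans (by norm_num)
  | cons j v =>
    obtain ⟨_, hj, hv⟩ := hv
    rw [Ye]
    refine (norm_sub_le _ _).trans ?_
    have h1 := hE.part v hv (j + 1) hj.le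
    have h2 := hE.nrm v hv
    have hm0 : (0 : ℝ) < m v := by
      have := hE.two v
      have : 0 < m v := by omega
      exact_mod_cast this
    have h6 : ((j + 1 : ℕ) : ℝ) * (2 / m v) ≤ 2 := by
      have : ((j + 1 : ℕ) : ℝ) ≤ m v := by exact_mod_cast hj.le
      rw [mul_div_assoc', div_le_iff₀ hm0]
      linarith
    rw [norm_smul, Real.norm_of_nonneg (by positivity)]
    have h7 : ((j + 1 : ℕ) : ℝ) * (2 / m v) * ‖Ev v‖ ≤ 2 * 2 :=
      mul_le_mul h6 h2 (norm_nonneg _) (by norm_num)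
    linarith

lemma Ye_last (v : List ℕ) (hv : Ok m v) : Ye m Ev ((m v - 1) :: v) = 0 := by
  rw [Ye]
  have h2 := hE.two v
  rw [show m v - 1 + 1 = m v by omega, hE.sum v hv, sub_eq_zero]
  congr 1
  have : (m v : ℝ) ≠ 0 := by
    have : m v ≠ 0 := by omega
    exact_mod_cast this
  field_simp

lemma Y_two (v : List ℕ) (hv : NL m v) (h2 : m v = 2) :
    (2 : ℝ) • (Ev v - Ap m Ev v) = (Ev (0 :: v) - Ap m Ev (0 :: v)) +
      (Ev (1 :: v) - Ap m Ev (1 :: v)) := by
  have h1 := hE.sum v hv.1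
  rw [h2, Finset.sum_range_succ, Finset.sum_range_one] at h1
  rw [Ap, if_pos h2, if_neg hv.2, Ap, if_pos h2, if_neg hv.2, smul_sub, ← h1]
  module

/-- The image of the vectors `A` and `W`. -/
lemma image_AW {F : Type*} [AddCommGroup F] [Module ℝ F] {χ e : List ℕ → F} (Φ : F →ₗ[ℝ] E)
    (K : ℕ) (h1 : ∀ v, NL m v → v.length ≤ K → Φ (χ v) = Ev v - Ap m Ev v)
    (h2 : ∀ v, At m v → v.length ≤ K → Φ (e v) = Ye m Ev v)
    (h3 : ∀ v, Ok m v → e ((m v - 1) :: v) = 0) :
    ∀ v, Ok m v → v.length ≤ K → Φ (AA m χ e v) = Ap m Ev v ∧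
      Φ (WW m χ v) = Ev v - Ap m Ev v := by
  intro v
  induction v with
  | nil =>
    intro _ hK
    rw [AA_nil, WW_nil, map_zero, h2 [] trivial hK, Ap, Ye, sub_self]
    exact ⟨rfl, rfl⟩
  | cons j v ih =>
    rintro ⟨hj, hv⟩ hK
    have hK' : v.length ≤ K := by simp only [List.length_cons] at hK; omega
    obtain ⟨g1, g2⟩ := ih hv hK'
    by_cases hb : m v = 2
    · have hs := hE.sum v hv
      rw [hb, Finset.sum_range_succ, Finset.sum_range_one] at hs
      by_cases hl : left m v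
      · have h4 := h1 (1 :: v) (NL.one hv hb) (by simpa using hK)
        have hA1 : Ap m Ev (1 :: v) = Ap m Ev v + (2 : ℝ) • (Ev v - Ev (0 :: v)) := by
          rw [Ap, if_pos hb, if_pos hl, if_neg one_ne_zero]
        have hA0 : Ap m Ev (0 :: v) = Ap m Ev v := by
          rw [Ap, if_pos hb, if_pos hl, if_pos rfl]
        have hEv1 : Ev (1 :: v) = (2 : ℝ) • Ev v - Ev (0 :: v) := by rw [← hs]; abel
        have hj' : j = 0 ∨ j = 1 := by omega
        rcases hj' with rfl | rfl
        · rw [AA_left_zero hb hl, WW_left_zero hb hl, h4, g1, hA0, hA1, hEv1]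
          exact ⟨rfl, by module⟩
        · rw [AA_left_one hb hl, WW_nl (not_left_one hb), h4, map_sub, map_add, map_smul, map_smul,
            g1, g2, h4, hA1, hEv1]
          exact ⟨by module, rfl⟩
      · have hNL : NL m (j :: v) := ⟨⟨hj, hv⟩, not_left_of hb hl j⟩
        rw [AA_nl hb hl, WW_nl hNL.2, h1 _ hNL hK, g1]
        have hA : Ap m Ev (j :: v) = Ap m Ev v := by
          rw [Ap, if_pos hb, if_neg hl]
        rw [hA]
        exact ⟨rfl, rfl⟩
    · have he : ∀ i, i < m v → Φ (e (i :: v)) = Ye m Ev (i :: v) := by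
        intro i hi
        by_cases hi2 : i + 1 < m v
        · exact h2 (i :: v) ⟨hb, hi2, hv⟩ (by simpa using hK)
        · have : i = m v - 1 := by omega
          rw [this, h3 v hv, map_zero, Ye_last hE v hv]
      have hA : Ap m Ev (j :: v) = Ev (j :: v) := by
        rw [Ap, if_neg hb]
      rw [AA_bad hb, WW_bad hb, map_zero, hA, sub_self, map_sub, map_add, map_smul, map_add, g1, g2,
        he j hj]
      refine ⟨?_, rfl⟩
      rcases Nat.eq_zero_or_pos j with rfl | hj0
      · rw [if_pos rfl, map_zero, Ye, Finset.sum_range_one]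
        push_cast
        module
      · rw [if_neg (by omega), he (j - 1) (by omega), Ye, Ye, show j - 1 + 1 = j by omega,
          Finset.sum_range_succ]
        push_cast
        module

omit hE in
lemma lev_length {v : List ℕ} {K : ℕ} (hv : v ∈ lev m K) : v.length = K := ((mem_lev m K v).1 hv).2

/-- The maps back. -/
theorem exists_back {Z : Type} [mZ : MeasurableSpace Z] {μ : Measure Z}
    {cell atom : List ℕ → Set Z} (C : CellSys m μ cell atom) (K : ℕ) :
    ∃ Φ : Lp ℝ 1 μ →ₗ[ℝ] E, (∀ z, ‖Φ z‖ ≤ 12 * ‖z‖) ∧ ∀ v, Ok m v → v.length ≤ K →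
      Φ (AA m (chi μ cell) (ea μ m atom) v + WW m (chi μ cell) v) = Ev v := by
  classical
  set P : List ℕ × Bool → Prop := fun p =>
    if p.2 then At m p.1 else (NL m p.1 ∧ (p.1.length = K ∨ m p.1 ≠ 2)) with hP
  set F : Finset (List ℕ × Bool) :=
    (((Finset.range (K + 1)).biUnion (lev m)) ×ˢ Finset.univ).filter P with hF
  have memF : ∀ p : List ℕ × Bool, p ∈ F ↔ (Ok m p.1 ∧ p.1.length ≤ K) ∧ P p := by
    intro p
    rw [hF, Finset.mem_filter, Finset.mem_product, Finset.mem_biUnion]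
    constructor
    · rintro ⟨⟨⟨k, hk, h1⟩, _⟩, h2⟩
      rw [mem_lev] at h1
      have := Finset.mem_range.1 hk
      exact ⟨⟨h1.1, by omega⟩, h2⟩
    · rintro ⟨⟨h1, h2⟩, h3⟩
      exact ⟨⟨⟨p.1.length, Finset.mem_range.2 (by omega), (mem_lev m _ _).2 ⟨h1, rfl⟩⟩,
        Finset.mem_univ _⟩, h3⟩
  set S : List ℕ × Bool → Set Z := fun p => if p.2 then atom p.1 else cell p.1 with hS
  set y : List ℕ × Bool → E := fun p => if p.2 then Ye m Ev p.1 else Ev p.1 - Ap m Ev p.1 with hy
  have Pt : ∀ v, P (v, true) ↔ At m v := fun v => by simp [hP]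
  have Pf : ∀ v, P (v, false) ↔ (NL m v ∧ (v.length = K ∨ m v ≠ 2)) := fun v => by simp [hP]
  have St : ∀ v, S (v, true) = atom v := fun v => by simp [hS]
  have Sf : ∀ v, S (v, false) = cell v := fun v => by simp [hS]
  have yt : ∀ v, y (v, true) = Ye m Ev v := fun v => by simp [hy]
  have yf : ∀ v, y (v, false) = Ev v - Ap m Ev v := fun v => by simp [hy]
  clear hF hP hS hy
  clear_value F
  clear_value P S y
  have g1 : ∀ i ∈ F, MeasurableSet (S i) := by
    rintro ⟨v, c⟩ hp
    obtain ⟨_, h2⟩ := (memF _).1 hp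
    cases c with
    | true => rw [St]; exact C.ma v ((Pt v).1 h2)
    | false => rw [Sf]; exact C.mc v ((Pf v).1 h2).1
  have g2 : ∀ i ∈ F, μ (S i) ≠ ⊤ := by
    rintro ⟨v, c⟩ hp
    obtain ⟨_, h2⟩ := (memF _).1 hp
    cases c with
    | true => rw [St]; exact C.fa v ((Pt v).1 h2)
    | false => rw [Sf]; exact C.fc v ((Pf v).1 h2).1
  have g3 : ∀ i ∈ F, 0 < μ.real (S i) := by
    rintro ⟨v, c⟩ hp
    obtain ⟨_, h2⟩ := (memF _).1 hp
    cases c with
    | true => rw [St]; exact C.pa v ((Pt v).1 h2)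
    | false => rw [Sf]; exact C.pc v ((Pf v).1 h2).1
  have g4 : ∀ i ∈ F, ∀ j ∈ F, i ≠ j → Disjoint (S i) (S j) := by
    rintro ⟨v, c⟩ hp ⟨w, d⟩ hq hne
    obtain ⟨⟨_, hvK⟩, h2⟩ := (memF _).1 hp
    obtain ⟨⟨_, hwK⟩, h4⟩ := (memF _).1 hq
    cases c with
    | true =>
      cases d with
      | true =>
        rw [St, St]
        exact C.daa v w ((Pt v).1 h2) ((Pt w).1 h4) fun h => hne (by rw [h])
      | false =>
        rw [St, Sf]
        exact (C.dca w v ((Pf w).1 h4).1 ((Pt v).1 h2)).symm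
    | false =>
      cases d with
      | true =>
        rw [Sf, St]
        exact C.dca v w ((Pf v).1 h2).1 ((Pt w).1 h4)
      | false =>
        rw [Sf, Sf]
        obtain ⟨hv, hv2⟩ := (Pf v).1 h2
        obtain ⟨hw, hw2⟩ := (Pf w).1 h4
        have hvw : v ≠ w := fun h => hne (by rw [h])
        simp only at hvK hwK
        rcases le_total w.length v.length with h | h
        · refine C.dcc v w hv hw hvw h ?_
          rcases hw2 with h5 | h5
          · left; omega
          · exact Or.inr h5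
        · refine (C.dcc w v hw hv (Ne.symm hvw) h ?_).symm
          rcases hv2 with h5 | h5
          · left; omega
          · exact Or.inr h5
  have g5 : ∀ i ∈ F, ‖y i‖ ≤ 12 := by
    rintro ⟨v, c⟩ hp
    obtain ⟨_, h2⟩ := (memF _).1 hp
    cases c with
    | true => rw [yt]; exact Ye_norm hE v ((Pt v).1 h2)
    | false => rw [yf]; exact Y_norm hE v ((Pf v).1 h2).1.1
  obtain ⟨Φ, hΦ1, hΦ2⟩ := exists_phi (μ := μ) F S y (R := 12) (by norm_num) g1 g2 g3 g4 g5
  have hcell0 : ∀ v, NL m v → v.length ≤ K → (v.length = K ∨ m v ≠ 2) →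
      Φ (chi μ cell v) = Ev v - Ap m Ev v := by
    intro v hv hK hor
    have := hΦ2 (v, false) ((memF _).2 ⟨⟨hv.1, hK⟩, (Pf v).2 ⟨hv, hor⟩⟩)
    rw [Sf, yf] at this
    exact this
  have hcell : ∀ n v, NL m v → v.length + n = K → Φ (chi μ cell v) = Ev v - Ap m Ev v := by
    intro n
    induction n with
    | zero => exact fun v hv hK => hcell0 v hv (by omega) (Or.inl (by omega))
    | succ n ih =>
      intro v hv hK
      by_cases hb : m v = 2
      · have h0 := ih (0 :: v) (hv.child hb (by norm_num)) (by simp only [List.length_cons]; omega)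
        have h1 := ih (1 :: v) (hv.child hb (by norm_num)) (by simp only [List.length_cons]; omega)
        have h2 := congrArg Φ (chi_two C v hv hb)
        rw [map_smul, map_add, h0, h1, ← Y_two hE v hv hb] at h2
        exact smul_right_injective E (two_ne_zero (α := ℝ)) h2
      · exact hcell0 v hv (by omega) (Or.inr hb)
  refine ⟨Φ, hΦ1, fun v hv hK => ?_⟩
  obtain ⟨g1, g2⟩ := image_AW hE (χ := chi μ cell) (e := ea μ m atom) Φ K
    (fun v hv hK => hcell (K - v.length) v hv (by omega))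
    (fun v hv hK => by
      have := hΦ2 (v, true) ((memF _).2 ⟨⟨hv.ok, hK⟩, (Pt v).2 hv⟩)
      rw [St, yt] at this
      rw [ea, if_pos hv]
      exact this)
    (fun v hv => ea_last C v (hE.two v)) v hv hK
  rw [map_add, g1, g2]
  abel

end back

end Pool.Agent.R91.FA
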