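import Mathlib

/-!
Density of the span of indicators of a countable laminar generating family in `L¹`.
-/

set_option autoImplicit false

namespace Pool.Agent.R91.FA

open Set Filter Topology MeasureTheory
open scoped ENNReal

variable {Z : Type} [mZ : MeasurableSpace Z] (μ : Measure Z)

open Classical in
/-- The indicator of a measurable set of finite measure in `L¹`. -/
noncomputable def ind (S : Set Z) : Lp ℝ 1 μ :=
  if h : MeasurableSet S ∧ μ S ≠ ⊤ then indicatorConstLp 1 h.1 h.2 (1 : ℝ) else 0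

variable {μ}

lemma ind_eq {S : Set Z} (hS : MeasurableSet S) (hμ : μ S ≠ ⊤) :
    ind μ S = indicatorConstLp 1 hS hμ (1 : ℝ) := by
  unfold ind; rw [dif_pos ⟨hS, hμ⟩]

lemma ind_coe {S : Set Z} (hS : MeasurableSet S) (hμ : μ S ≠ ⊤) :
    (ind μ S : Z → ℝ) =ᵐ[μ] S.indicator fun _ => (1 : ℝ) := by
  rw [ind_eq hS hμ]; exact indicatorConstLp_coeFn

lemma norm_ind {S : Set Z} (hS : MeasurableSet S) (hμ : μ S ≠ ⊤) : ‖ind μ S‖ = μ.real S := by
  rw [ind_eq hS hμ, norm_indicatorConstLp one_ne_zero ENNReal.one_ne_top]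
  simp

lemma ind_union {S T : Set Z} (hS : MeasurableSet S) (hT : MeasurableSet T) (hμS : μ S ≠ ⊤)
    (hμT : μ T ≠ ⊤) (hd : Disjoint S T) : ind μ (S ∪ T) = ind μ S + ind μ T := by
  have hU : μ (S ∪ T) ≠ ⊤ := (measure_union_lt_top hμS.lt_top hμT.lt_top).ne
  rw [ind_eq hS hμS, ind_eq hT hμT, ind_eq (hS.union hT) hU]
  exact indicatorConstLp_disjoint_union hS hT hμS hμT hd 1

lemma ind_empty : ind μ (∅ : Set Z) = 0 := by
  rw [ind_eq MeasurableSet.empty (by simp)]
  exact indicatorConstLp_empty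

lemma ind_congr {S T : Set Z} (hS : MeasurableSet S) (hT : MeasurableSet T) (hμS : μ S ≠ ⊤)
    (h : S =ᵐ[μ] T) : ind μ S = ind μ T := by
  have hμT : μ T ≠ ⊤ := by rw [← measure_congr h]; exact hμS
  refine Lp.ext ?_
  refine (ind_coe hS hμS).trans (EventuallyEq.trans ?_ (ind_coe hT hμT).symm)
  exact indicator_ae_eq_of_ae_eq_set h

lemma ind_diff {S T : Set Z} (hS : MeasurableSet S) (hT : MeasurableSet T) (hμS : μ S ≠ ⊤)
    (hTS : T ⊆ S) : ind μ (S \ T) = ind μ S - ind μ T := by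
  have hμT : μ T ≠ ⊤ := (measure_lt_top_of_subset hTS hμS).ne
  have hμD : μ (S \ T) ≠ ⊤ := (measure_lt_top_of_subset diff_subset hμS).ne
  rw [eq_sub_iff_add_eq, ← ind_union (hS.diff hT) hT hμD hμT disjoint_sdiff_left,
    diff_union_of_subset hTS]

section dense

variable (V : Submodule ℝ (Lp ℝ 1 μ)) (hV : IsClosed (V : Set (Lp ℝ 1 μ)))
include hV

lemma mono_union {t : ℕ → Set Z} (ht : ∀ n, MeasurableSet (t n)) (hm : Monotone t)
    (hμ : μ (⋃ n, t n) ≠ ⊤) (hmem : ∀ n, ind μ (t n) ∈ V) : ind μ (⋃ n, t n) ∈ V := by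
  set s := ⋃ n, t n with hs
  have hsm : MeasurableSet s := MeasurableSet.iUnion ht
  have hsub : ∀ n, t n ⊆ s := fun n => subset_iUnion t n
  have h1 : Tendsto (fun n => μ.real (s \ t n)) atTop (𝓝 0) := by
    have h2 : Tendsto (μ ∘ fun n => s \ t n) atTop (𝓝 (μ (⋂ n, s \ t n))) := by
      refine tendsto_measure_iInter_atTop (fun n => (hsm.diff (ht n)).nullMeasurableSet) ?_ ?_
      · intro i j hij
        exact diff_subset_diff_right (hm hij)
      · exact ⟨0, (measure_lt_top_of_subset diff_subset hμ).ne⟩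
    have h3 : (⋂ n, s \ t n) = ∅ := by
      rw [← diff_iUnion, ← hs, diff_self]
    rw [h3, measure_empty] at h2
    have h4 := (ENNReal.tendsto_toReal ENNReal.zero_ne_top).comp h2
    rw [ENNReal.toReal_zero] at h4
    exact h4
  have h2 : Tendsto (fun n => ind μ (t n)) atTop (𝓝 (ind μ s)) := by
    rw [tendsto_iff_norm_sub_tendsto_zero]
    refine h1.congr fun n => ?_
    rw [← norm_neg, neg_sub, ← ind_diff hsm (ht n) hμ (hsub n),
      norm_ind (hsm.diff (ht n)) (measure_lt_top_of_subset diff_subset hμ).ne]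
  exact hV.mem_of_tendsto h2 (Eventually.of_forall hmem)

lemma step1 {𝒵 : Set (Set Z)} (hgen : mZ = MeasurableSpace.generateFrom 𝒵)
    (hpi : IsPiSystem 𝒵) {c : Set Z} (hc : MeasurableSet c) (hμc : μ c ≠ ⊤) (hcV : ind μ c ∈ V)
    (hbasic : ∀ S ∈ 𝒵, ind μ (S ∩ c) ∈ V) : ∀ A, MeasurableSet A → ind μ (A ∩ c) ∈ V := by
  have hfin : ∀ A : Set Z, μ (A ∩ c) ≠ ⊤ := fun A =>
    (measure_lt_top_of_subset inter_subset_right hμc).ne
  refine MeasurableSpace.induction_on_inter (C := fun A _ => ind μ (A ∩ c) ∈ V) hgen hpi ?_ ?_ ?_ ?_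
  · rw [empty_inter, ind_empty]; exact V.zero_mem
  · exact hbasic
  · intro A hA ih
    have : Aᶜ ∩ c = c \ (A ∩ c) := by
      ext x; simp only [mem_inter_iff, mem_compl_iff, mem_diff]; tauto
    rw [this, ind_diff hc (hA.inter hc) hμc inter_subset_right]
    exact V.sub_mem hcV ih
  · intro f hd hf ih
    have e : (⋃ i, f i) ∩ c = ⋃ n, ((⋃ i ∈ Finset.range n, f i) ∩ c) := by
      ext x
      simp only [mem_inter_iff, mem_iUnion, Finset.mem_range, exists_prop]
      constructor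
      · rintro ⟨⟨i, hi⟩, hx⟩; exact ⟨i + 1, ⟨i, by omega, hi⟩, hx⟩
      · rintro ⟨n, ⟨i, _, hi⟩, hx⟩; exact ⟨⟨i, hi⟩, hx⟩
    have hmeas : ∀ n, MeasurableSet ((⋃ i ∈ Finset.range n, f i) ∩ c) := fun n =>
      (Finset.measurableSet_biUnion _ fun i _ => hf i).inter hc
    rw [e]
    refine mono_union V hV hmeas ?_ ?_ ?_
    · intro n n' hnn
      refine inter_subset_inter_left _ (biUnion_subset_biUnion_left fun i hi => ?_)
      exact Finset.mem_range.2 (lt_of_lt_of_le (Finset.mem_range.1 hi) hnn)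
    · rw [← e]; exact hfin _
    · intro n
      induction n with
      | zero => simp [ind_empty]
      | succ n ihn =>
        have h1 : (⋃ i ∈ Finset.range (n + 1), f i) ∩ c =
            ((⋃ i ∈ Finset.range n, f i) ∩ c) ∪ (f n ∩ c) := by
          rw [Finset.range_add_one, Finset.set_biUnion_insert, union_comm, union_inter_distrib_right]
        rw [h1, ind_union (hmeas n) ((hf n).inter hc) (hfin _) (hfin _)]
        · exact V.add_mem ihn (ih n)
        · rw [Set.disjoint_left]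
          rintro x ⟨hx1, _⟩ ⟨hx2, _⟩
          simp only [mem_iUnion, Finset.mem_range, exists_prop] at hx1
          obtain ⟨i, hi, hx1⟩ := hx1
          exact Set.disjoint_left.1 (hd (by omega : i ≠ n)) hx1 hx2

/-- The density lemma. -/
theorem dense_laminar {𝒵 : Set (Set Z)} (hgen : mZ = MeasurableSpace.generateFrom 𝒵)
    (hct : 𝒵.Countable) (hlam : ∀ S ∈ 𝒵, ∀ T ∈ 𝒵, Disjoint S T ∨ S ⊆ T ∨ T ⊆ S)
    (hfin : ∀ S ∈ 𝒵, μ S ≠ ⊤) (hcov : μ (⋃₀ 𝒵)ᶜ = 0) (hmem : ∀ S ∈ 𝒵, ind μ S ∈ V) : V = ⊤ := by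
  have hms : ∀ S ∈ 𝒵, MeasurableSet S := fun S hS => by
    have := MeasurableSpace.measurableSet_generateFrom hS
    rw [hgen]; exact this
  have hpi : IsPiSystem 𝒵 := by
    intro S hS T hT hne
    rcases hlam S hS T hT with h | h | h
    · exact absurd (Set.disjoint_iff_inter_eq_empty.1 h) hne.ne_empty
    · rw [inter_eq_left.2 h]; exact hS
    · rw [inter_eq_right.2 h]; exact hT
  have key : ∀ c ∈ insert ∅ 𝒵, ∀ A, MeasurableSet A → ind μ (A ∩ c) ∈ V := by
    rintro c (rfl | hc) A hA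
    · rw [inter_empty, ind_empty]; exact V.zero_mem
    · refine step1 V hV hgen hpi (hms c hc) (hfin c hc) (hmem c hc) ?_ A hA
      intro S hS
      rcases hlam S hS c hc with h | h | h
      · rw [Set.disjoint_iff_inter_eq_empty.1 h, ind_empty]; exact V.zero_mem
      · rw [inter_eq_left.2 h]; exact hmem S hS
      · rw [inter_eq_right.2 h]; exact hmem c hc
  obtain ⟨c, hc⟩ := (hct.insert ∅).exists_eq_range (insert_nonempty _ _)
  have hcm : ∀ n, c n ∈ insert ∅ 𝒵 := fun n => by rw [hc]; exact mem_range_self n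
  have hcmeas : ∀ n, MeasurableSet (c n) := by
    intro n
    rcases hcm n with h | h
    · rw [h]; exact MeasurableSet.empty
    · exact hms _ h
  have hcU : ⋃ n, c n = ⋃₀ 𝒵 := by
    rw [← sUnion_range, ← hc, sUnion_insert, empty_union]
  have hA : ∀ A, MeasurableSet A → μ A ≠ ⊤ → ind μ A ∈ V := by
    intro A hA hμA
    have hUm : MeasurableSet (⋃ n, c n) := MeasurableSet.iUnion hcmeas
    have e : A =ᵐ[μ] (A ∩ ⋃ n, c n : Set Z) := by
      rw [hcU] at hUm ⊢
      have h0 : ∀ᵐ x ∂μ, x ∈ ⋃₀ 𝒵 := by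
        rw [ae_iff]; exact hcov
      filter_upwards [h0] with x hx
      exact propext ⟨fun h => ⟨h, hx⟩, fun h => h.1⟩
    rw [ind_congr hA (hA.inter hUm) hμA e]
    have e2 : A ∩ ⋃ n, c n = ⋃ n, (A ∩ ⋃ i ∈ Finset.range n, c i) := by
      ext x
      simp only [mem_inter_iff, mem_iUnion, Finset.mem_range, exists_prop]
      constructor
      · rintro ⟨hx, i, hi⟩; exact ⟨i + 1, hx, i, by omega, hi⟩
      · rintro ⟨n, hx, i, _, hi⟩; exact ⟨hx, i, hi⟩
    have hmeas : ∀ n, MeasurableSet (A ∩ ⋃ i ∈ Finset.range n, c i) := fun n =>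
      hA.inter (Finset.measurableSet_biUnion _ fun i _ => hcmeas i)
    have hf : ∀ T : Set Z, μ (A ∩ T) ≠ ⊤ := fun T =>
      (measure_lt_top_of_subset inter_subset_left hμA).ne
    have hf' : ∀ T : Set Z, T ⊆ A → μ T ≠ ⊤ := fun T hT =>
      (measure_lt_top_of_subset hT hμA).ne
    rw [e2]
    refine mono_union V hV hmeas ?_ ?_ ?_
    · intro n n' hnn
      refine inter_subset_inter_right _ (biUnion_subset_biUnion_left fun i hi => ?_)
      exact Finset.mem_range.2 (lt_of_lt_of_le (Finset.mem_range.1 hi) hnn)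
    · rw [← e2]; exact hf _
    · intro n
      induction n with
      | zero => simp [ind_empty]
      | succ n ihn =>
        have h1 : A ∩ (⋃ i ∈ Finset.range (n + 1), c i) =
            (A ∩ ⋃ i ∈ Finset.range n, c i) ∪ ((A \ ⋃ i ∈ Finset.range n, c i) ∩ c n) := by
          rw [Finset.range_add_one, Finset.set_biUnion_insert]
          ext x
          simp only [mem_inter_iff, mem_union, mem_diff]
          tauto
        have hmD : MeasurableSet (A \ ⋃ i ∈ Finset.range n, c i) :=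
          hA.diff (Finset.measurableSet_biUnion _ fun i _ => hcmeas i)
        rw [h1, ind_union (hmeas n) (hmD.inter (hcmeas n)) (hf _)
          (hf' _ fun x hx => hx.1.1)]
        · exact V.add_mem ihn (key _ (hcm n) _ hmD)
        · rw [Set.disjoint_left]
          rintro x ⟨_, hx1⟩ ⟨hx2, _⟩
          exact hx2.2 hx1
  rw [eq_top_iff]
  intro f _
  refine Lp.induction (p := 1) ENNReal.one_ne_top (fun f => f ∈ V) ?_ ?_ hV f
  · intro r s hs hμs
    have h1 : ((Lp.simpleFunc.indicatorConst 1 hs hμs.ne r : Lp.simpleFunc ℝ 1 μ) : Lp ℝ 1 μ) =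
        r • ind μ s := by
      rw [Lp.simpleFunc.coe_indicatorConst, ind_eq hs hμs.ne]
      refine Lp.ext ?_
      refine indicatorConstLp_coeFn.trans ?_
      refine EventuallyEq.trans ?_ (Lp.coeFn_smul r _).symm
      filter_upwards [indicatorConstLp_coeFn (p := 1) (hs := hs) (hμs := hμs.ne) (c := (1 : ℝ))]
        with x hx
      rw [Pi.smul_apply, hx]
      by_cases hxs : x ∈ s <;> simp [hxs]
    rw [h1]
    exact V.smul_mem _ (hA s hs hμs.ne)
  · intro f g hf hg _ h1 h2
    exact V.add_mem h1 h2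

end dense

end Pool.Agent.R91.FA
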