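import Pool.Agent.R91.FA.Tree
import Pool.Agent.R91.FA.Dense

/-!
The measure space attached to a tree.
-/

set_option autoImplicit false

namespace Pool.Agent.R91.FA

open Set Filter Topology MeasureTheory

/-- The left-most words of the binary components. -/
def left (m : List ℕ → ℕ) : List ℕ → Prop
  | [] => True
  | j :: v => m v = 2 → left m v ∧ j = 0

/-- Words which are not left-most. -/
def NL (m : List ℕ → ℕ) (v : List ℕ) : Prop := Ok m v ∧ ¬ left m v

/-- Words with an atom. -/
def At (m : List ℕ → ℕ) : List ℕ → Prop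
  | [] => True
  | j :: v => m v ≠ 2 ∧ j + 1 < m v ∧ Ok m v

lemma At.ok {m : List ℕ → ℕ} {v : List ℕ} (h : At m v) : Ok m v := by
  cases v with
  | nil => trivial
  | cons j v => exact ⟨by have := h.2.1; omega, h.2.2⟩

lemma NL.two {m : List ℕ → ℕ} {j : ℕ} {v : List ℕ} (h : NL m (j :: v)) : m v = 2 := by
  by_contra hcon
  exact h.2 fun h2 => absurd h2 hcon

lemma NL.up {m : List ℕ → ℕ} {j : ℕ} {v : List ℕ} (h : NL m (j :: v)) (h2 : ¬ left m v) : NL m v :=
  ⟨h.1.2, h2⟩

lemma NL.child {m : List ℕ → ℕ} {j : ℕ} {v : List ℕ} (h : NL m v) (h2 : m v = 2) (hj : j < 2) :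
    NL m (j :: v) :=
  ⟨⟨by rw [h2]; exact hj, h.1⟩, fun h3 => h.2 (h3 h2).1⟩

lemma NL.one {m : List ℕ → ℕ} {v : List ℕ} (h : Ok m v) (h2 : m v = 2) :
    NL m (1 :: v) :=
  ⟨⟨by rw [h2]; norm_num, h⟩, fun h3 => by have := (h3 h2).2; omega⟩

/-- The system of cells and atoms. -/
structure CellSys (m : List ℕ → ℕ) {Z : Type} [MeasurableSpace Z] (μ : Measure Z)
    (cell atom : List ℕ → Set Z) : Prop where
  mc : ∀ v, NL m v → MeasurableSet (cell v)
  ma : ∀ v, At m v → MeasurableSet (atom v)
  fc : ∀ v, NL m v → μ (cell v) ≠ ⊤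
  fa : ∀ v, At m v → μ (atom v) ≠ ⊤
  pc : ∀ v, NL m v → 0 < μ.real (cell v)
  pa : ∀ v, At m v → 0 < μ.real (atom v)
  dcc : ∀ v w, NL m v → NL m w → v ≠ w → w.length ≤ v.length → (w.length = v.length ∨ m w ≠ 2) →
    Disjoint (cell v) (cell w)
  daa : ∀ v w, At m v → At m w → v ≠ w → Disjoint (atom v) (atom w)
  dca : ∀ v w, NL m v → At m w → Disjoint (cell v) (atom w)
  half : ∀ v, NL m v → m v = 2 → ∀ j < 2, μ.real (cell (j :: v)) = μ.real (cell v) / 2
  un : ∀ v, NL m v → m v = 2 → cell v = cell (0 :: v) ∪ cell (1 :: v)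
  dense : ∀ V : Submodule ℝ (Lp ℝ 1 μ), IsClosed (V : Set (Lp ℝ 1 μ)) →
    (∀ v, NL m v → ind μ (cell v) ∈ V) → (∀ v, At m v → ind μ (atom v) ∈ V) → V = ⊤

section concrete

variable (m : List ℕ → ℕ)

/-- The code of a word. -/
noncomputable def cd (v : List ℕ) : ℝ := ((Encodable.encode v : ℕ) : ℝ)

open Classical in
/-- The left end of a cell and its length. -/
noncomputable def cxh : List ℕ → ℝ × ℝ
  | [] => (0, 1)
  | j :: v => if left m v then (2 * cd (j :: v), 1) else
      ((cxh v).1 + j * ((cxh v).2 / 2), (cxh v).2 / 2)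

open Classical in
/-- The root of a cell. -/
noncomputable def rt : List ℕ → List ℕ
  | [] => []
  | j :: v => if left m v then j :: v else rt v

/-- The cell. -/
noncomputable def cel (v : List ℕ) : Set ℝ := Ico (cxh m v).1 ((cxh m v).1 + (cxh m v).2)

/-- The atom. -/
noncomputable def ato (v : List ℕ) : Set ℝ := Ico (2 * cd v + 1) (2 * cd v + 2)

variable {m}

lemma rt_suffix : ∀ v, rt m v <:+ v := by
  intro v
  induction v with
  | nil => exact List.suffix_refl _
  | cons j v ih =>
    unfold rt
    split_ifs with h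
    · exact List.suffix_refl _
    · exact ih.trans (List.suffix_cons j v)

lemma cd_sep {v w : List ℕ} (h : v ≠ w) : cd v + 1 ≤ cd w ∨ cd w + 1 ≤ cd v := by
  have h1 : Encodable.encode v ≠ Encodable.encode w := fun h2 => h (Encodable.encode_injective h2)
  unfold cd
  rcases lt_or_gt_of_ne h1 with h2 | h2
  · left; exact_mod_cast h2
  · right; exact_mod_cast h2

lemma cel_sub : ∀ v, NL m v → 0 < (cxh m v).2 ∧ 2 * cd (rt m v) ≤ (cxh m v).1 ∧
    (cxh m v).1 + (cxh m v).2 ≤ 2 * cd (rt m v) + 1 := by
  intro v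
  induction v with
  | nil => intro h; exact absurd trivial h.2
  | cons j v ih =>
    intro h
    by_cases hl : left m v
    · rw [cxh, rt, if_pos hl, if_pos hl]
      exact ⟨one_pos, le_rfl, le_rfl⟩
    · rw [cxh, rt, if_neg hl, if_neg hl]
      obtain ⟨h1, h2, h3⟩ := ih (h.up hl)
      have hj : j < 2 := by have := h.1.1; rw [h.two] at this; exact this
      have hj0 : (0 : ℝ) ≤ j := Nat.cast_nonneg j
      have hj1 : (j : ℝ) ≤ 1 := by
        have : j ≤ 1 := by omega
        exact_mod_cast this
      simp only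
      refine ⟨by linarith, by nlinarith, by nlinarith⟩

lemma cel_child {v : List ℕ} (h : NL m v) {j : ℕ} (hj : j < 2) : cel m (j :: v) ⊆ cel m v := by
  unfold cel
  rw [cxh, if_neg h.2]
  have h1 := (cel_sub v h).1
  have hj0 : (0 : ℝ) ≤ j := Nat.cast_nonneg j
  have hj1 : (j : ℝ) ≤ 1 := by
    have : j ≤ 1 := by omega
    exact_mod_cast this
  simp only
  exact Ico_subset_Ico (by nlinarith) (by nlinarith)

lemma cel_child_disj {v : List ℕ} (h : NL m v) : Disjoint (cel m (0 :: v)) (cel m (1 :: v)) := by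
  unfold cel
  rw [cxh, if_neg h.2, cxh, if_neg h.2]
  simp only
  rw [Set.disjoint_left]
  rintro x ⟨_, h1⟩ ⟨h2, _⟩
  push_cast at h1 h2
  linarith

lemma cel_child_union {v : List ℕ} (h : NL m v) : cel m v = cel m (0 :: v) ∪ cel m (1 :: v) := by
  unfold cel
  rw [cxh, if_neg h.2, cxh, if_neg h.2]
  have h1 := (cel_sub v h).1
  simp only
  ext x
  simp only [mem_union, mem_Ico]
  push_cast
  constructor
  · rintro ⟨h2, h3⟩
    rcases lt_or_ge x ((cxh m v).1 + (cxh m v).2 / 2) with h4 | h4
    · left; constructor <;> linarith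
    · right; constructor <;> linarith
  · rintro (⟨h2, h3⟩ | ⟨h2, h3⟩)
    · constructor <;> linarith
    · constructor <;> linarith

lemma cel_root_disj {v w : List ℕ} (hv : NL m v) (hw : NL m w) (h : rt m v ≠ rt m w) :
    Disjoint (cel m v) (cel m w) := by
  obtain ⟨_, h1, h2⟩ := cel_sub v hv
  obtain ⟨_, h3, h4⟩ := cel_sub w hw
  rw [Set.disjoint_left]
  rintro x ⟨h5, h6⟩ ⟨h7, h8⟩
  rcases cd_sep h with h9 | h9 <;> linarith

lemma cel_rel : ∀ v, NL m v → ∀ w, NL m w → w.length ≤ v.length →
    Disjoint (cel m v) (cel m w) ∨ v = w ∨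
      (w.length < v.length ∧ m w = 2 ∧ cel m v ⊆ cel m w) := by
  intro v
  induction v with
  | nil => intro h; exact absurd trivial h.2
  | cons j v ih =>
    intro hv w hw hlen
    have hj : j < 2 := by have := hv.1.1; rw [hv.two] at this; exact this
    by_cases hl : left m v
    · by_cases hr : rt m (j :: v) = rt m w
      · right; left
        have e : rt m (j :: v) = j :: v := by rw [rt, if_pos hl]
        rw [e] at hr
        have h1 := rt_suffix (m := m) w
        rw [← hr] at h1
        exact h1.eq_of_length (le_antisymm h1.length_le hlen)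
      · left; exact cel_root_disj hv hw hr
    · have hvu := hv.up hl
      by_cases hlen2 : w.length ≤ v.length
      · rcases ih hvu w hw hlen2 with h | h | h
        · left; exact h.mono_left (cel_child hvu hj)
        · right; right
          subst h
          exact ⟨by simp, hv.two, cel_child hvu hj⟩
        · right; right
          exact ⟨by simp only [List.length_cons]; omega, h.2.1, (cel_child hvu hj).trans h.2.2⟩
      · have hlen3 : w.length = v.length + 1 := by
          simp only [List.length_cons] at hlen; omega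
        cases w with
        | nil => simp at hlen3
        | cons i u =>
          have hi : i < 2 := by have := hw.1.1; rw [hw.two] at this; exact this
          simp only [List.length_cons, Nat.add_right_cancel_iff] at hlen3
          by_cases hlu : left m u
          · left
            refine cel_root_disj hv hw fun hr => ?_
            have e : rt m (i :: u) = i :: u := by rw [rt, if_pos hlu]
            have e2 : rt m (j :: v) = rt m v := by rw [rt, if_neg hl]
            rw [e, e2] at hr
            have h1 := (rt_suffix (m := m) v).length_le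
            rw [hr] at h1
            simp only [List.length_cons] at h1
            omega
          · have hwu := hw.up hlu
            rcases ih hvu u hwu hlen3.le with h | h | h
            · left; exact h.mono (cel_child hvu hj) (cel_child hwu hi)
            · subst h
              by_cases hij : j = i
              · subst hij; exact Or.inr (Or.inl rfl)
              · left
                have hd := cel_child_disj hvu
                rcases Nat.lt_or_gt_of_ne hij with h3 | h3
                · have e1 : j = 0 := by omega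
                  have e2 : i = 1 := by omega
                  rw [e1, e2]; exact hd
                · have e1 : j = 1 := by omega
                  have e2 : i = 0 := by omega
                  rw [e1, e2]; exact hd.symm
            · omega

lemma ato_disj {v w : List ℕ} (h : v ≠ w) : Disjoint (ato v) (ato w) := by
  unfold ato
  rw [Set.disjoint_left]
  rintro x ⟨h5, h6⟩ ⟨h7, h8⟩
  rcases cd_sep h with h9 | h9 <;> linarith

lemma cel_ato_disj {v w : List ℕ} (hv : NL m v) : Disjoint (cel m v) (ato w) := by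
  unfold ato
  obtain ⟨_, h1, h2⟩ := cel_sub v hv
  rw [Set.disjoint_left]
  rintro x ⟨h5, h6⟩ ⟨h7, h8⟩
  by_cases h : rt m v = w
  · subst h; linarith
  · rcases cd_sep h with h9 | h9 <;> linarith

lemma exists_measure (𝒵 : Set (Set ℝ)) (h𝒵 : ∀ S ∈ 𝒵, MeasurableSet S) (hct : 𝒵.Countable) :
    ∃ μ : @Measure ℝ (MeasurableSpace.generateFrom 𝒵),
      (∀ S ∈ 𝒵, μ S = volume S) ∧ μ (⋃₀ 𝒵)ᶜ = 0 := by
  have hle : MeasurableSpace.generateFrom 𝒵 ≤ Real.measurableSpace :=
    MeasurableSpace.generateFrom_le h𝒵
  have hU : MeasurableSet (⋃₀ 𝒵) := MeasurableSet.sUnion hct h𝒵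
  have hm : ∀ S ∈ 𝒵, @MeasurableSet ℝ (MeasurableSpace.generateFrom 𝒵) S := fun S hS =>
    MeasurableSpace.measurableSet_generateFrom hS
  have hU' : @MeasurableSet ℝ (MeasurableSpace.generateFrom 𝒵) (⋃₀ 𝒵) :=
    @MeasurableSet.sUnion ℝ (MeasurableSpace.generateFrom 𝒵) 𝒵 hct hm
  refine ⟨(volume.restrict (⋃₀ 𝒵)).trim hle, fun S hS => ?_, ?_⟩
  · rw [trim_measurableSet_eq hle (hm S hS), Measure.restrict_apply (h𝒵 S hS),
      inter_eq_left.2 (subset_sUnion_of_mem hS)]
  · rw [trim_measurableSet_eq hle hU'.compl, Measure.restrict_apply hU.compl, compl_inter_self,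
      measure_empty]

theorem exists_cells (m : List ℕ → ℕ) : ∃ (Z : Type) (_ : MeasurableSpace Z) (μ : Measure Z)
    (cell atom : List ℕ → Set Z), CellSys m μ cell atom := by
  set 𝒵 : Set (Set ℝ) := (cel m '' {v | NL m v}) ∪ (ato '' {v | At m v}) with h𝒵
  have hct : 𝒵.Countable := ((Set.to_countable _).image _).union ((Set.to_countable _).image _)
  have hms : ∀ S ∈ 𝒵, MeasurableSet S := by
    rintro S (⟨v, _, rfl⟩ | ⟨v, _, rfl⟩)
    · exact measurableSet_Ico
    · exact measurableSet_Ico
  obtain ⟨μ, hμ, hμ0⟩ := exists_measure 𝒵 hms hct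
  have hcm : ∀ v, NL m v → cel m v ∈ 𝒵 := fun v hv => Or.inl ⟨v, hv, rfl⟩
  have ham : ∀ v, At m v → ato v ∈ 𝒵 := fun v hv => Or.inr ⟨v, hv, rfl⟩
  have hc : ∀ v, NL m v → μ (cel m v) = ENNReal.ofReal (cxh m v).2 := by
    intro v hv
    rw [hμ _ (hcm v hv)]
    unfold cel
    rw [Real.volume_Ico]
    congr 1; ring
  have ha : ∀ v, At m v → μ (ato v) = 1 := by
    intro v hv
    rw [hμ _ (ham v hv)]
    unfold ato
    rw [Real.volume_Ico, ← ENNReal.ofReal_one]
    congr 1; ring
  have hcr : ∀ v, NL m v → (μ (cel m v)).toReal = (cxh m v).2 := by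
    intro v hv
    rw [hc v hv, ENNReal.toReal_ofReal (cel_sub v hv).1.le]
  refine ⟨ℝ, MeasurableSpace.generateFrom 𝒵, μ, cel m, ato, ?_⟩
  refine @CellSys.mk m ℝ (MeasurableSpace.generateFrom 𝒵) μ (cel m) ato
    (fun v hv => MeasurableSpace.measurableSet_generateFrom (hcm v hv))
    (fun v hv => MeasurableSpace.measurableSet_generateFrom (ham v hv))
    (fun v hv => by rw [hc v hv]; exact ENNReal.ofReal_ne_top)
    (fun v hv => by rw [ha v hv]; exact ENNReal.one_ne_top)
    (fun v hv => by
        change 0 < (μ (cel m v)).toReal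
        rw [hcr v hv]; exact (cel_sub v hv).1)
    (fun v hv => by
        change 0 < (μ (ato v)).toReal
        rw [ha v hv]; simp)
    ?_ (fun v w _ _ h => ato_disj h) (fun v w hv _ => cel_ato_disj hv)
    ?_ (fun v hv _ => cel_child_union hv) ?_
  · intro v w hv hw hne hlen hor
    rcases cel_rel v hv w hw hlen with h | h | h
    · exact h
    · exact absurd h hne
    · rcases hor with h2 | h2
      · omega
      · exact absurd h.2.1 h2
  · intro v hv h2 j hj
    change (μ (cel m (j :: v))).toReal = (μ (cel m v)).toReal / 2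
    rw [hcr v hv, hcr _ (hv.child h2 hj), cxh, if_neg hv.2]
  · intro V hV h1 h2
    refine @dense_laminar ℝ (MeasurableSpace.generateFrom 𝒵) μ V hV 𝒵 rfl hct ?_ ?_ hμ0 ?_
    · rintro S (⟨v, hv, rfl⟩ | ⟨v, hv, rfl⟩) T (⟨w, hw, rfl⟩ | ⟨w, hw, rfl⟩)
      · rcases le_total w.length v.length with h | h
        · rcases cel_rel v hv w hw h with h | h | h
          · exact Or.inl h
          · rw [h]; exact Or.inr (Or.inl Subset.rfl)
          · exact Or.inr (Or.inl h.2.2)
        · rcases cel_rel w hw v hv h with h | h | h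
          · exact Or.inl h.symm
          · rw [h]; exact Or.inr (Or.inl Subset.rfl)
          · exact Or.inr (Or.inr h.2.2)
      · exact Or.inl (cel_ato_disj hv)
      · exact Or.inl (cel_ato_disj hw).symm
      · by_cases h : v = w
        · rw [h]; exact Or.inr (Or.inl Subset.rfl)
        · exact Or.inl (ato_disj h)
    · rintro S (⟨v, hv, rfl⟩ | ⟨v, hv, rfl⟩)
      · rw [hc v hv]; exact ENNReal.ofReal_ne_top
      · rw [ha v hv]; exact ENNReal.one_ne_top
    · rintro S (⟨v, hv, rfl⟩ | ⟨v, hv, rfl⟩)
      · exact h1 v hv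
      · exact h2 v hv

end concrete

end Pool.Agent.R91.FA
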