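import Pool.Agent.R91.FA.Back

/-!
The isomorphism between the free space of a bounded turning arc and an `L¹` space, abstract form.
-/

set_option autoImplicit false
set_option linter.unusedSectionVars false

namespace Pool.Agent.R91.FA

open Set Filter Topology MeasureTheory

section iso

variable {E : Type*} [NormedAddCommGroup E] [NormedSpace ℝ E] [CompleteSpace E]
variable {m : List ℕ → ℕ} {Ev : List ℕ → E} (hE : Dat m Ev)
variable {Z : Type} [mZ : MeasurableSpace Z] {μ : Measure Z}
  {cell atom : List ℕ → Set Z} (C : CellSys m μ cell atom)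
include hE C

theorem iso_of (T : E →L[ℝ] Lp ℝ 1 μ)
    (hT : ∀ v, Ok m v → T (Ev v) = AA m (chi μ cell) (ea μ m atom) v + WW m (chi μ cell) v)
    (hd : Dense ((Submodule.span ℝ (Ev '' {v | Ok m v}) : Submodule ℝ E) : Set E)) :
    Nonempty (E ≃L[ℝ] Lp ℝ 1 μ) := by
  have h1 : ∀ z ∈ Submodule.span ℝ (Ev '' {v | Ok m v}), ∃ K : ℕ, ∀ Φ : Lp ℝ 1 μ →ₗ[ℝ] E,
      (∀ v, Ok m v → v.length ≤ K →
        Φ (AA m (chi μ cell) (ea μ m atom) v + WW m (chi μ cell) v) = Ev v) → Φ (T z) = z := by
    intro z hz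
    induction hz using Submodule.span_induction with
    | mem z hz =>
      obtain ⟨v, hv, rfl⟩ := hz
      exact ⟨v.length, fun Φ hΦ => by rw [hT v hv]; exact hΦ v hv le_rfl⟩
    | zero => exact ⟨0, fun Φ _ => by rw [map_zero, map_zero]⟩
    | add y z _ _ ihy ihz =>
      obtain ⟨K, hK⟩ := ihy
      obtain ⟨L, hL⟩ := ihz
      refine ⟨max K L, fun Φ hΦ => ?_⟩
      rw [map_add, map_add, hK Φ fun v hv hl => hΦ v hv (hl.trans (le_max_left _ _)),
        hL Φ fun v hv hl => hΦ v hv (hl.trans (le_max_right _ _))]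
    | smul c z _ ih =>
      obtain ⟨K, hK⟩ := ih
      exact ⟨K, fun Φ hΦ => by rw [map_smul, map_smul, hK Φ hΦ]⟩
  have h2 : ∀ z ∈ Submodule.span ℝ (Ev '' {v | Ok m v}), ‖z‖ ≤ 12 * ‖T z‖ := by
    intro z hz
    obtain ⟨K, hK⟩ := h1 z hz
    obtain ⟨Φ, hΦ1, hΦ2⟩ := exists_back hE C K
    have := hΦ1 (T z)
    rwa [hK Φ hΦ2] at this
  have h3 : ∀ z, ‖z‖ ≤ 12 * ‖T z‖ := by
    intro z
    have hcl : IsClosed {z : E | ‖z‖ ≤ 12 * ‖T z‖} :=
      isClosed_le continuous_norm (continuous_const.mul T.continuous.norm)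
    have : closure ((Submodule.span ℝ (Ev '' {v | Ok m v}) : Submodule ℝ E) : Set E) ⊆
        {z : E | ‖z‖ ≤ 12 * ‖T z‖} := hcl.closure_subset_iff.2 h2
    rw [hd.closure_eq] at this
    exact this (mem_univ z)
  have h4 : AntilipschitzWith 12 T := by
    refine AddMonoidHomClass.antilipschitz_of_bound T fun z => ?_
    have := h3 z
    simpa using this
  have hcl : IsClosed ((LinearMap.range (T : E →ₗ[ℝ] Lp ℝ 1 μ) : Submodule ℝ (Lp ℝ 1 μ)) :
      Set (Lp ℝ 1 μ)) := by
    have := h4.isClosed_range T.uniformContinuous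
    rw [LinearMap.coe_range]
    exact this
  have hU : ∀ v, Ok m v → AA m (chi μ cell) (ea μ m atom) v + WW m (chi μ cell) v ∈
      LinearMap.range (T : E →ₗ[ℝ] Lp ℝ 1 μ) := fun v hv => ⟨Ev v, hT v hv⟩
  obtain ⟨m1, m2⟩ := mem_span _ hU
  have htop : LinearMap.range (T : E →ₗ[ℝ] Lp ℝ 1 μ) = ⊤ := by
    refine C.dense _ hcl (fun v hv => ?_) (fun v hv => ?_)
    · have h5 := Submodule.smul_mem _ (μ.real (cell v)) (m1 v hv)
      rw [chi, smul_smul, one_div, mul_inv_cancel₀ (C.pc v hv).ne', one_smul] at h5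
      exact h5
    · have h5 := Submodule.smul_mem _ (μ.real (atom v)) (m2 v hv)
      rw [ea, if_pos hv, smul_smul, one_div, mul_inv_cancel₀ (C.pa v hv).ne', one_smul] at h5
      exact h5
  have hker : LinearMap.ker (T : E →ₗ[ℝ] Lp ℝ 1 μ) = ⊥ := by
    rw [LinearMap.ker_eq_bot]
    exact h4.injective
  exact ⟨ContinuousLinearEquiv.ofBijective T hker htop⟩

end iso

section arc

variable {X : Type} [MetricSpace X] (e : X ≃ₜ unitInterval)

/-- The parametrisation. -/
noncomputable def gg (t : ℝ) : X := e.symm (projIcc 0 1 zero_le_one t)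

/-- The gauge. -/
noncomputable def rr (s t : ℝ) : ℝ := Metric.diam (gg e '' Icc s t)

lemma gg_cont : Continuous (gg e) := e.symm.continuous.comp continuous_projIcc

lemma gg_bdd (s t : ℝ) : Bornology.IsBounded (gg e '' Icc s t) :=
  (isCompact_Icc.image (gg_cont e)).isBounded

lemma e_gg {t : ℝ} (h0 : 0 ≤ t) (h1 : t ≤ 1) : (e (gg e t) : ℝ) = t := by
  unfold gg
  rw [e.apply_symm_apply, projIcc_of_mem zero_le_one ⟨h0, h1⟩]

lemma gg_e (x : X) : gg e (e x) = x := by
  unfold gg
  rw [projIcc_val, e.symm_apply_apply]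

lemma dist_le_rr {s t u v : ℝ} (hu : u ∈ Icc s t) (hv : v ∈ Icc s t) :
    dist (gg e u) (gg e v) ≤ rr e s t :=
  Metric.dist_le_diam_of_mem (gg_bdd e s t) (mem_image_of_mem _ hu) (mem_image_of_mem _ hv)

lemma gauge_rr : Gauge (rr e) where
  mono := by
    intro s s' t' t _ h1 _ h3 _
    exact Metric.diam_mono (image_mono (Icc_subset_Icc h1 h3)) (gg_bdd e s t)
  tri := by
    intro s t u _ hst htu _
    unfold rr
    rw [← Icc_union_Icc_eq_Icc hst htu, image_union]
    refine Metric.diam_union' ⟨gg e t, ?_, ?_⟩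
    · exact mem_image_of_mem _ ⟨hst, le_rfl⟩
    · exact mem_image_of_mem _ ⟨le_rfl, htu⟩
  pos := by
    intro s t hs hst ht
    refine lt_of_lt_of_le (dist_pos.2 fun h => ?_)
      (dist_le_rr e (left_mem_Icc.2 hst.le) (right_mem_Icc.2 hst.le))
    have : (e (gg e s) : ℝ) = e (gg e t) := by rw [h]
    rw [e_gg e hs (hst.le.trans ht), e_gg e (hs.trans hst.le) ht] at this
    exact hst.ne this
  unif := by
    intro ε hε
    have huc : UniformContinuous (gg e) := by
      have h1 : UniformContinuous (e.symm : unitInterval → X) :=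
        CompactSpace.uniformContinuous_of_continuous e.symm.continuous
      have h2 : UniformContinuous (projIcc (0 : ℝ) 1 zero_le_one) :=
        (LipschitzWith.projIcc zero_le_one).uniformContinuous
      exact h1.comp h2
    rw [Metric.uniformContinuous_iff] at huc
    obtain ⟨η, hη, h⟩ := huc (ε / 2) (by positivity)
    refine ⟨η, hη, fun s t _ hst _ hlt => ?_⟩
    refine lt_of_le_of_lt (Metric.diam_le_of_forall_dist_le (C := ε / 2) (by positivity) ?_)
      (by linarith)
    rintro _ ⟨u, hu, rfl⟩ _ ⟨v, hv, rfl⟩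
    refine (h ?_).le
    rw [Real.dist_eq, abs_lt]
    constructor <;> linarith [hu.1, hu.2, hv.1, hv.2]

lemma rr_le {C : ℝ} (hC : ∀ x y, Metric.diam (e.symm '' Set.uIcc (e x) (e y)) ≤ C * dist x y)
    {s t : ℝ} (_hs : 0 ≤ s) (hst : s ≤ t) (_ht : t ≤ 1) :
    rr e s t ≤ C * dist (gg e s) (gg e t) := by
  refine le_trans ?_ (hC (gg e s) (gg e t))
  refine Metric.diam_mono ?_ ?_
  · rintro _ ⟨u, hu, rfl⟩
    unfold gg
    refine mem_image_of_mem _ ?_
    rw [e.apply_symm_apply, e.apply_symm_apply, uIcc_of_le (monotone_projIcc _ hst)]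
    exact ⟨monotone_projIcc _ hu.1, monotone_projIcc _ hu.2⟩
  · exact (isCompact_uIcc.image e.symm.continuous).isBounded

theorem main {C : ℝ} (hC : ∀ x y, Metric.diam (e.symm '' Set.uIcc (e x) (e y)) ≤ C * dist x y)
    (x₀ : X) {E : Type} [NormedAddCommGroup E] [NormedSpace ℝ E] [CompleteSpace E] (δ : X → E)
    (hδ0 : δ x₀ = 0) (hδ : ∀ x y, ‖δ x - δ y‖ ≤ dist x y)
    (hdense : Dense ((Submodule.span ℝ (Set.range δ) : Submodule ℝ E) : Set E))
    (huniv : ∀ (B : Type) [NormedAddCommGroup B] [NormedSpace ℝ B] [CompleteSpace B] (f : X → B)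
      (K : ℝ), 0 ≤ K → (∀ x y, ‖f x - f y‖ ≤ K * dist x y) → f x₀ = 0 →
      ∃ T : E →L[ℝ] B, ∀ x, T (δ x) = f x) :
    ∃ (Z : Type) (_ : MeasurableSpace Z) (μ : Measure Z), Nonempty (E ≃L[ℝ] Lp ℝ 1 μ) := by
  set ρ := rr e with hρ
  have G : Gauge ρ := gauge_rr e
  set D := ρ 0 1 with hD
  obtain ⟨m, a, b, T⟩ : ∃ m a b, ITree ρ D m a b := ⟨_, _, _, exists_tree ρ D G rfl⟩
  have hD0 := T.Dpos
  obtain ⟨Z, mZ, μ, cell, atom, CS⟩ := exists_cells m
  set g := gg e with hg
  set Ev : List ℕ → E := fun v => (2 ^ v.length / D) • (δ (g (b v)) - δ (g (a v))) with hEv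
  have hC0 : 0 ≤ C := by
    by_contra hcon
    push Not at hcon
    have h1 := rr_le e hC le_rfl zero_le_one le_rfl
    have h2 : 0 ≤ dist (gg e 0) (gg e 1) := dist_nonneg
    have h3 : rr e 0 1 = D := rfl
    nlinarith
  have tel : ∀ v, Ok m v → ∀ j, j < m v →
      ∑ i ∈ Finset.range (j + 1), (δ (g (b (i :: v))) - δ (g (a (i :: v)))) =
        δ (g (b (j :: v))) - δ (g (a v)) := by
    intro v hv j
    induction j with
    | zero => intro _; rw [Finset.sum_range_one, T.first v hv]
    | succ j ih =>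
      intro hj
      rw [Finset.sum_range_succ, ih (by omega), T.next v hv j hj]
      abel
  have sumEv : ∀ v (n : ℕ), ∑ j ∈ Finset.range n, Ev (j :: v) =
      (2 ^ (v.length + 1) / D) • ∑ j ∈ Finset.range n, (δ (g (b (j :: v))) - δ (g (a (j :: v)))) := by
    intro v n
    rw [Finset.smul_sum]
    rfl
  have ndist : ∀ s t u v, u ∈ Icc s t → v ∈ Icc s t → ‖δ (g u) - δ (g v)‖ ≤ ρ s t :=
    fun s t u v hu hv => (hδ _ _).trans (dist_le_rr e hu hv)
  have hE : Dat m Ev := by
    refine ⟨T.two, fun v hv => ?_, fun v hv => ?_, fun v hv j₀ hj₀ => ?_⟩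
    · have h2 := T.two v
      obtain ⟨n, hn⟩ : ∃ n, m v = n + 1 := ⟨m v - 1, by omega⟩
      rw [sumEv, hn, tel v hv n (by omega), hEv]
      have h3 := T.last v hv
      rw [hn, Nat.add_sub_cancel] at h3
      simp only
      rw [h3, smul_smul]
      congr 1
      rw [pow_succ]; ring
    · have h1 := T.rng v hv
      have h2 := ndist (a v) (b v) (b v) (a v) (right_mem_Icc.2 h1.2.1.le) (left_mem_Icc.2 h1.2.1.le)
      have h3 := T.hi v hv
      simp only [hEv]
      rw [norm_smul, Real.norm_of_nonneg (by positivity)]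
      calc 2 ^ v.length / D * ‖δ (g (b v)) - δ (g (a v))‖
          ≤ 2 ^ v.length / D * (2 * (D / 2 ^ v.length)) :=
            mul_le_mul_of_nonneg_left (h2.trans h3) (by positivity)
        _ = 2 := by field_simp
    · rw [sumEv]
      cases j₀ with
      | zero => simp
      | succ j =>
        rw [tel v hv j (by omega)]
        have h1 := T.rng v hv
        have h4 := T.rng (j :: v) ⟨by omega, hv⟩
        have h5 := T.child_sub hv (j := j) (by omega)
        have h2 := ndist (a v) (b v) (b (j :: v)) (a v) ⟨by linarith, h5.2⟩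
          (left_mem_Icc.2 h1.2.1.le)
        have h3 := T.hi v hv
        rw [norm_smul, Real.norm_of_nonneg (by positivity)]
        calc 2 ^ (v.length + 1) / D * ‖δ (g (b (j :: v))) - δ (g (a v))‖
            ≤ 2 ^ (v.length + 1) / D * (2 * (D / 2 ^ v.length)) :=
              mul_le_mul_of_nonneg_left (h2.trans h3) (by positivity)
          _ = 4 := by rw [pow_succ]; field_simp; norm_num
  -- density
  have hdE : Dense ((Submodule.span ℝ (Ev '' {v | Ok m v}) : Submodule ℝ E) : Set E) := by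
    set V := (Submodule.span ℝ (Ev '' {v | Ok m v})).topologicalClosure with hV
    have hVc : IsClosed (V : Set E) := Submodule.isClosed_topologicalClosure _
    have hsub : ∀ v, Ok m v → δ (g (b v)) - δ (g (a v)) ∈ V := by
      intro v hv
      have h1 : Ev v ∈ V := Submodule.le_topologicalClosure _ (Submodule.subset_span ⟨v, hv, rfl⟩)
      have h2 := V.smul_mem (D / 2 ^ v.length) h1
      simp only [hEv] at h2
      rw [smul_smul] at h2
      have h3 : D / 2 ^ v.length * (2 ^ v.length / D) = 1 := by field_simp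
      rwa [h3, one_smul] at h2
    have ha : ∀ v, Ok m v → δ (g (a v)) - δ (g 0) ∈ V := by
      intro v
      induction v with
      | nil => intro _; rw [T.a0, sub_self]; exact V.zero_mem
      | cons j v ih =>
        rintro ⟨hj, hv⟩
        have h1 := ih hv
        cases j with
        | zero => rw [T.first v hv]; exact h1
        | succ j =>
          rw [← T.next v hv j hj]
          have h2 : δ (g (b (j :: v))) - δ (g (a v)) ∈ V := by
            rw [← tel v hv j (by omega)]
            exact V.sum_mem fun i hi => hsub (i :: v) ⟨by have := Finset.mem_range.1 hi; omega, hv⟩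
          have h3 := V.add_mem h2 h1
          rwa [sub_add_sub_cancel] at h3
    have hall : ∀ t, 0 ≤ t → t ≤ 1 → δ (g t) - δ (g 0) ∈ V := by
      intro t h0 h1
      rcases h1.eq_or_lt with rfl | h1
      · have := hsub [] trivial
        rwa [T.a0, T.b0] at this
      · have h2 : ∀ K : ℕ, ∃ w : List ℕ, Ok m w ∧
            ‖(δ (g t) - δ (g 0)) - (δ (g (a w)) - δ (g 0))‖ ≤ 2 * (D / 2 ^ K) := by
          intro K
          obtain ⟨w, hw, hwa, hwb⟩ := T.cover K t h0 h1
          have hwo := (mem_lev m K w).1 hw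
          refine ⟨w, hwo.1, ?_⟩
          have h3 := T.hi w hwo.1
          rw [hwo.2] at h3
          rw [sub_sub_sub_cancel_right]
          exact (ndist (a w) (b w) t (a w) ⟨hwa, hwb.le⟩
            (left_mem_Icc.2 (T.rng w hwo.1).2.1.le)).trans h3
        choose w hw1 hw2 using h2
        have hlim : Tendsto (fun k : ℕ => 2 * (D / 2 ^ k)) atTop (𝓝 0) := by
          have h1 : Tendsto (fun k : ℕ => (1 / 2 : ℝ) ^ k) atTop (𝓝 0) :=
            tendsto_pow_atTop_nhds_zero_of_lt_one (by norm_num) (by norm_num)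
          have h2 := h1.const_mul (2 * D)
          rw [mul_zero] at h2
          refine h2.congr fun k => ?_
          rw [one_div, inv_pow]; ring
        have h3 : Tendsto (fun k => δ (g (a (w k))) - δ (g 0)) atTop (𝓝 (δ (g t) - δ (g 0))) := by
          rw [tendsto_iff_norm_sub_tendsto_zero]
          refine squeeze_zero (fun _ => norm_nonneg _) (fun k => ?_) hlim
          rw [norm_sub_rev]
          exact hw2 k
        exact hVc.mem_of_tendsto h3 (Eventually.of_forall fun k => ha (w k) (hw1 k))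
    have hx : ∀ x, δ x - δ (g 0) ∈ V := by
      intro x
      have := hall (e x) (e x).2.1 (e x).2.2
      rwa [hg, gg_e] at this
    have h0 := hx x₀
    rw [hδ0, zero_sub] at h0
    have hx2 : ∀ x, δ x ∈ V := by
      intro x
      have h1 := V.sub_mem (hx x) h0
      rwa [sub_neg_eq_add, sub_add_cancel] at h1
    have hle : Submodule.span ℝ (Set.range δ) ≤ V := by
      rw [Submodule.span_le]
      rintro _ ⟨x, rfl⟩
      exact hx2 x
    rw [dense_iff_closure_eq]
    have h4 : closure ((Submodule.span ℝ (Set.range δ) : Submodule ℝ E) : Set E) ⊆ (V : Set E) :=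
      hVc.closure_subset_iff.2 hle
    rw [hdense.closure_eq] at h4
    exact Set.eq_univ_of_univ_subset h4
  -- the operator
  have hS : Syn m (fun v => AA m (chi μ cell) (ea μ m atom) v + WW m (chi μ cell) v) 43 :=
    syn_U T.two (chi_norm CS) (ea_norm CS) (chi_two CS) (fun v _ _ => ea_last CS v (T.two v))
  obtain ⟨θ, hθ1, hθ2⟩ := exists_synth T hS G
  obtain ⟨S, hSδ⟩ := huniv (Lp ℝ 1 μ) (fun x => θ (e x) - θ (e x₀)) (6 * 43 * C) (by positivity)
    (by
      have key : ∀ x y : X, (e x : ℝ) ≤ e y → ‖θ (e y) - θ (e x)‖ ≤ 6 * 43 * C * dist x y := by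
        intro x y hxy
        have h1 := hθ2 (e x) (e y) (e x).2.1 hxy (e y).2.2
        have h2 := rr_le e hC (e x).2.1 hxy (e y).2.2
        rw [gg_e, gg_e] at h2
        calc ‖θ (e y) - θ (e x)‖ ≤ 6 * 43 * ρ (e x) (e y) := h1
          _ ≤ 6 * 43 * (C * dist x y) := mul_le_mul_of_nonneg_left h2 (by norm_num)
          _ = 6 * 43 * C * dist x y := by ring
      intro x y
      simp only [sub_sub_sub_cancel_right]
      rcases le_total (e x : ℝ) (e y) with h | h
      · rw [norm_sub_rev]; exact key x y h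
      · rw [dist_comm]; exact key y x h)
    (by simp only [sub_self])
  refine ⟨Z, mZ, μ, iso_of hE CS S (fun v hv => ?_) hdE⟩
  have h1 := T.rng v hv
  simp only [hEv]
  rw [map_smul, map_sub, hSδ, hSδ, sub_sub_sub_cancel_right, hg, e_gg e (by linarith) h1.2.2,
    e_gg e h1.1 (by linarith), hθ1 v hv, smul_smul]
  have h3 : 2 ^ v.length / D * (D / 2 ^ v.length) = 1 := by field_simp
  rw [h3, one_smul]

end arc

end Pool.Agent.R91.FA
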