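import Pool.Agent.R91.FA.Final
import Pool.Agent.H266R3.LDef

/-!
The universal property of the Lipschitz free space.
-/

set_option autoImplicit false
set_option linter.unusedSectionVars false

namespace Pool.Agent.R91.FA

open Set Filter Topology MeasureTheory
open Pool.Agent.H266R3.LF

variable {X : Type} [MetricSpace X] {o : X}

/-- The evaluation at `x` as an element of the free space. -/
noncomputable def dl (o : X) (x : X) : FreeSp X o := ⟨dlt X o x, dlt_mem x⟩

noncomputable instance : CompleteSpace (FreeSp X o) := by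
  have h : IsClosed ((LFree X o : Submodule ℝ (StrongDual ℝ (Lip0 X o))) :
      Set (StrongDual ℝ (Lip0 X o))) :=
    Submodule.isClosed_topologicalClosure (Submodule.span ℝ (Set.range (dlt X o)))
  exact h.completeSpace_coe

lemma dense_dl : Dense ((Submodule.span ℝ (Set.range (dl o)) : Submodule ℝ (FreeSp X o)) :
    Set (FreeSp X o)) := by
  have hmap : (Submodule.span ℝ (Set.range (dl o))).map (inc X o) =
      Submodule.span ℝ (Set.range (dlt X o)) := by
    rw [Submodule.map_span, ← Set.range_comp]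
    rfl
  intro z
  have hz : inc X o z ∈ closure ((Submodule.span ℝ (Set.range (dlt X o)) : Submodule ℝ _) : Set _) :=
    inc_mem z
  rw [← hmap, Submodule.map_coe] at hz
  rw [Metric.mem_closure_iff] at hz ⊢
  intro ε hε
  obtain ⟨_, ⟨w, hw, rfl⟩, h⟩ := hz ε hε
  refine ⟨w, hw, ?_⟩
  rw [dist_eq_norm] at h ⊢
  rw [← map_sub, norm_inc] at h
  exact h

/-- Continuous inclusion. -/
noncomputable def incL (X : Type) [MetricSpace X] (o : X) :
    FreeSp X o →L[ℝ] StrongDual ℝ (Lip0 X o) :=
  LinearMap.mkContinuous (inc X o) 1 fun z => by rw [norm_inc, one_mul]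

variable {B : Type} [NormedAddCommGroup B] [NormedSpace ℝ B]

/-- Composition with a Lipschitz map. -/
noncomputable def compF (f : X → B) (K : ℝ) (hK : 0 ≤ K) (hf : ∀ x y, ‖f x - f y‖ ≤ K * dist x y)
    (h0 : f o = 0) : StrongDual ℝ B →L[ℝ] Lip0 X o :=
  LinearMap.mkContinuous
    { toFun := fun φ => Lip0.mk (fun x => φ (f x)) (by rw [h0, map_zero]) (‖φ‖ * K) (by positivity)
        (fun x y => by
          rw [← map_sub, ← Real.norm_eq_abs, mul_assoc]
          exact (φ.le_opNorm _).trans (mul_le_mul_of_nonneg_left (hf x y) (norm_nonneg _)))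
      map_add' := fun _ _ => Lip0.ext fun _ => rfl
      map_smul' := fun _ _ => Lip0.ext fun _ => rfl } K (fun φ => by
        rw [mul_comm]
        refine Lip0.norm_le' _ (by positivity) fun x y => ?_
        change |φ (f x) - φ (f y)| ≤ _
        rw [← map_sub, ← Real.norm_eq_abs, mul_assoc]
        exact (φ.le_opNorm _).trans (mul_le_mul_of_nonneg_left (hf x y) (norm_nonneg _)))

theorem lift_abs [CompleteSpace B] {F W : Type} [NormedAddCommGroup F] [NormedSpace ℝ F]
    [NormedAddCommGroup W] [NormedSpace ℝ W] (J : B →ₗᵢ[ℝ] W)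
    (T2 : F →L[ℝ] W) (S : Set F)
    (hS : Dense ((Submodule.span ℝ S : Submodule ℝ F) : Set F))
    (h1 : ∀ x ∈ S, T2 x ∈ Set.range J) :
    ∃ T : F →L[ℝ] B, ∀ z, J (T z) = T2 z := by
  have hcl : IsClosed (Set.range J) := by
    have h : Isometry J := J.isometry
    have h' := h.isClosedEmbedding
    exact h'.isClosed_range
  have h2 : ∀ z, T2 z ∈ Set.range J := by
    intro z
    have hsub : ((Submodule.span ℝ S : Submodule ℝ F) : Set F) ⊆ T2 ⁻¹' (Set.range J) := by
      have : Submodule.span ℝ S ≤ (LinearMap.range J.toLinearMap).comap (T2 : F →ₗ[ℝ] _) := by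
        rw [Submodule.span_le]
        intro x hx
        exact h1 x hx
      exact this
    exact (closure_minimal hsub (hcl.preimage T2.continuous)) (hS z)
  choose T hT using h2
  have hadd : ∀ y z, T (y + z) = T y + T z := fun y z => by
    apply J.injective
    rw [hT, map_add, map_add, hT, hT]
  have hsmul : ∀ (c : ℝ) z, T (c • z) = c • T z := fun c z => by
    apply J.injective
    rw [hT, map_smul, map_smul, hT]
  refine ⟨LinearMap.mkContinuous { toFun := T, map_add' := hadd, map_smul' := hsmul } ‖T2‖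
    (fun z => ?_), fun z => hT z⟩
  change ‖T z‖ ≤ _
  rw [← J.norm_map, hT]
  exact T2.le_opNorm z

theorem lift [CompleteSpace B] (f : X → B) (K : ℝ) (hK : 0 ≤ K)
    (hf : ∀ x y, ‖f x - f y‖ ≤ K * dist x y) (h0 : f o = 0) :
    ∃ T : FreeSp X o →L[ℝ] B, ∀ x, T (dl o x) = f x := by
  let T2 : FreeSp X o →L[ℝ] StrongDual ℝ (StrongDual ℝ B) :=
    ((ContinuousLinearMap.compL ℝ (StrongDual ℝ B) (Lip0 X o) ℝ).flip (compF f K hK hf h0)).comp
      (incL X o)
  have h1 : ∀ x, T2 (dl o x) = NormedSpace.inclusionInDoubleDualLi (E := B) ℝ (f x) := by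
    intro x
    ext φ
    rfl
  have h2 : ∀ y ∈ Set.range (dl o), T2 y ∈
      Set.range (NormedSpace.inclusionInDoubleDualLi (E := B) ℝ) := by
    rintro _ ⟨x, rfl⟩
    exact ⟨f x, (h1 x).symm⟩
  obtain ⟨T, hT⟩ := lift_abs (W := StrongDual ℝ (StrongDual ℝ B))
    (NormedSpace.inclusionInDoubleDualLi (E := B) ℝ) T2 (Set.range (dl o)) dense_dl h2
  refine ⟨T, fun x => ?_⟩
  apply (NormedSpace.inclusionInDoubleDualLi (E := B) ℝ).injective
  exact (hT (dl o x)).trans (h1 x)

/-- The free space of a bounded turning arc. -/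
theorem free_arc (e : X ≃ₜ unitInterval) (C : ℝ)
    (hC : ∀ x y, Metric.diam (e.symm '' Set.uIcc (e x) (e y)) ≤ C * dist x y) (x₀ : X) :
    ∃ (Z : Type) (_ : MeasurableSpace Z) (μ : Measure Z),
      Nonempty (FreeSp X x₀ ≃L[ℝ] Lp ℝ 1 μ) := by
  refine main e hC x₀ (dl x₀) ?_ ?_ dense_dl ?_
  · have h : dlt X x₀ x₀ = 0 := by
      ext f
      exact f.fn_base
    exact Subtype.ext h
  · intro x y
    exact norm_dlt_sub_le x y
  · intro B _ _ _ f K hK hf h0
    exact lift f K hK hf h0

end Pool.Agent.R91.FA
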