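import Pool.Agent.R91.FA.Tree

/-!
Synthesis of a Lipschitz map from its increments along a tree of nested intervals.
-/

set_option autoImplicit false

namespace Pool.Agent.R91.FA

open Set Filter Topology

section order

variable {ρ : ℝ → ℝ → ℝ} {D : ℝ} {m : List ℕ → ℕ} {a b : List ℕ → ℝ} (T : ITree ρ D m a b)
include T

lemma ITree.child_mono {v : List ℕ} (hv : Ok m v) : ∀ i j, i ≤ j → j < m v →
    a (i :: v) ≤ a (j :: v) ∧ b (i :: v) ≤ b (j :: v) := by
  intro i j hij hj
  induction j, hij using Nat.le_induction with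
  | base => exact ⟨le_rfl, le_rfl⟩
  | succ j hij ih =>
    obtain ⟨h1, h2⟩ := ih (by omega)
    have h3 := T.next v hv j hj
    have h4 := (T.rng (j :: v) ⟨by omega, hv⟩).2.1
    have h5 := (T.rng ((j + 1) :: v) ⟨hj, hv⟩).2.1
    constructor
    · linarith
    · linarith

lemma ITree.child_lt {v : List ℕ} (hv : Ok m v) {i j : ℕ} (hij : i < j) (hj : j < m v) :
    b (i :: v) ≤ a (j :: v) := by
  have h1 := T.next v hv i (by omega)
  rw [h1]
  exact (T.child_mono hv (i + 1) j hij hj).1

lemma ITree.child_sub {v : List ℕ} (hv : Ok m v) {j : ℕ} (hj : j < m v) :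
    a v ≤ a (j :: v) ∧ b (j :: v) ≤ b v := by
  have h1 := (T.child_mono hv 0 j (Nat.zero_le _) hj).1
  have h2 := (T.child_mono hv j (m v - 1) (by omega) (by have := T.two v; omega)).2
  rw [T.first v hv] at h1
  rw [T.last v hv] at h2
  exact ⟨h1, h2⟩

lemma ITree.order : ∀ (K : ℕ) (v w : List ℕ), v ∈ lev m K → w ∈ lev m K → v ≠ w →
    b v ≤ a w ∨ b w ≤ a v := by
  intro K
  induction K with
  | zero =>
    intro v w hv hw hne
    simp only [lev, Finset.mem_singleton] at hv hw
    exact absurd (hv.trans hw.symm) hne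
  | succ K ih =>
    intro v w hv hw hne
    rw [mem_lev] at hv hw
    obtain ⟨hv, hv2⟩ := hv
    obtain ⟨hw, hw2⟩ := hw
    cases v with
    | nil => simp at hv2
    | cons i v =>
    cases w with
    | nil => simp at hw2
    | cons j w =>
      simp only [List.length_cons, Nat.add_right_cancel_iff] at hv2 hw2
      by_cases hvw : v = w
      · subst hvw
        have hij : i ≠ j := fun h => hne (by rw [h])
        rcases lt_or_gt_of_ne hij with h | h
        · exact Or.inl (T.child_lt hv.2 h hw.1)
        · exact Or.inr (T.child_lt hv.2 h hv.1)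
      · have h1 := T.child_sub hv.2 hv.1
        have h2 := T.child_sub hw.2 hw.1
        rcases ih v w ((mem_lev m K v).2 ⟨hv.2, hv2⟩) ((mem_lev m K w).2 ⟨hw.2, hw2⟩) hvw with h | h
        · left; linarith
        · right; linarith

lemma ITree.cover : ∀ (K : ℕ) (t : ℝ), 0 ≤ t → t < 1 → ∃ w ∈ lev m K, a w ≤ t ∧ t < b w := by
  intro K
  induction K with
  | zero =>
    intro t h0 h1
    exact ⟨[], by simp [lev], by rw [T.a0]; exact h0, by rw [T.b0]; exact h1⟩
  | succ K ih =>
    intro t h0 h1
    obtain ⟨v, hv, hva, hvb⟩ := ih t h0 h1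
    rw [mem_lev] at hv
    have hm := T.two v
    have hex : ∃ j, t < b (j :: v) := ⟨m v - 1, by rw [T.last v hv.1]; exact hvb⟩
    classical
    set j := Nat.find hex with hj
    have hj1 : t < b (j :: v) := Nat.find_spec hex
    have hj2 : j ≤ m v - 1 := Nat.find_min' hex (by rw [T.last v hv.1]; exact hvb)
    refine ⟨j :: v, (mem_lev m (K + 1) _).2 ⟨⟨by omega, hv.1⟩, by simp [hv.2]⟩, ?_, hj1⟩
    rcases Nat.eq_zero_or_pos j with h | h
    · rw [h, T.first v hv.1]; exact hva
    · have h2 := Nat.find_min hex (m := j - 1) (by omega)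
      rw [not_lt] at h2
      have h3 := T.next v hv.1 (j - 1) (by omega)
      rw [show j - 1 + 1 = j by omega] at h3
      rw [← h3]; exact h2

end order

/-- Initial segments. -/
lemma exists_cut (n : ℕ) (P : ℕ → Prop) (hP : ∀ i j, i ≤ j → j < n → P j → P i) :
    ∃ j₀ ≤ n, ∀ j < n, P j ↔ j < j₀ := by
  classical
  by_cases h : ∀ j < n, P j
  · exact ⟨n, le_rfl, fun j hj => ⟨fun _ => hj, fun _ => h j hj⟩⟩
  · push Not at h
    obtain ⟨j, hj, hnj⟩ := h
    have hex : ∃ j, ¬ P j := ⟨j, hnj⟩
    refine ⟨Nat.find hex, (Nat.find_min' hex hnj).trans hj.le, fun i hi => ⟨fun hPi => ?_, fun hi2 => ?_⟩⟩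
    · by_contra hcon
      push Not at hcon
      exact Nat.find_spec hex (hP _ i hcon hi hPi)
    · by_contra hcon
      exact Nat.find_min hex hi2 hcon

section synth

variable {ρ : ℝ → ℝ → ℝ} {D : ℝ} {m : List ℕ → ℕ} {a b : List ℕ → ℝ} (T : ITree ρ D m a b)
variable {B : Type*} [NormedAddCommGroup B] [NormedSpace ℝ B]

/-- The synthesis data. -/
structure Syn (m : List ℕ → ℕ) (V : List ℕ → B) (A : ℝ) : Prop where
  A0 : 0 ≤ A
  root : ‖V []‖ ≤ A
  sum : ∀ v, Ok m v → ∑ j ∈ Finset.range (m v), V (j :: v) = (2 : ℝ) • V v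
  part : ∀ v, Ok m v → ∀ j₀ ≤ m v, ‖∑ j ∈ Finset.range j₀, V (j :: v)‖ ≤ A

variable {V : List ℕ → B} {A : ℝ} (hV : Syn m V A)

/-- The norm of a vector. -/
lemma Syn.norm_le (hV : Syn m V A) (_T : ITree ρ D m a b) : ∀ v, Ok m v → ‖V v‖ ≤ A := by
  intro v hv
  have h1 := hV.sum v hv
  have h2 := hV.part v hv (m v) le_rfl
  rw [h1, norm_smul] at h2
  norm_num at h2
  have := norm_nonneg (V v)
  linarith

/-- The partial sums. -/
noncomputable def SS (m : List ℕ → ℕ) (b : List ℕ → ℝ) (D : ℝ) (V : List ℕ → B) (K : ℕ) (t : ℝ) : B :=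
  (D / 2 ^ K) • ∑ w ∈ lev m K, if b w ≤ t then V w else 0

/-- The step vectors. -/
noncomputable def FF (m : List ℕ → ℕ) (b : List ℕ → ℝ) (V : List ℕ → B) (t : ℝ) (v : List ℕ) : B :=
  (∑ j ∈ Finset.range (m v), if b (j :: v) ≤ t then V (j :: v) else 0) -
    if b v ≤ t then (2 : ℝ) • V v else 0

lemma SS_step (K : ℕ) (t : ℝ) : SS m b D V (K + 1) t - SS m b D V K t =
    (D / 2 ^ (K + 1)) • ∑ v ∈ lev m K, FF m b V t v := by
  unfold SS FF
  rw [sum_lev_succ, Finset.sum_sub_distrib, smul_sub]
  congr 1
  have : D / 2 ^ K = (D / 2 ^ (K + 1)) * 2 := by rw [pow_succ]; field_simp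
  rw [this, mul_smul, Finset.smul_sum (r := (2 : ℝ))]
  congr 1
  refine Finset.sum_congr rfl fun v _ => ?_
  split_ifs
  · rfl
  · rw [smul_zero]

include T hV

lemma FF_zero {t : ℝ} {v : List ℕ} (hv : Ok m v) (h : b v ≤ t ∨ t ≤ a v) : FF m b V t v = 0 := by
  unfold FF
  rcases h with h | h
  · rw [if_pos h, ← hV.sum v hv, sub_eq_zero]
    refine Finset.sum_congr rfl fun j hj => ?_
    rw [if_pos ((T.child_sub hv (Finset.mem_range.1 hj)).2.trans h)]
  · have h1 := (T.rng v hv).2.1
    rw [if_neg (by linarith), sub_zero]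
    refine Finset.sum_eq_zero fun j hj => if_neg ?_
    have h2 := T.child_sub hv (Finset.mem_range.1 hj)
    have h3 := (T.rng (j :: v) ⟨Finset.mem_range.1 hj, hv⟩).2.1
    linarith

lemma FF_norm {t : ℝ} {v : List ℕ} (hv : Ok m v) : ‖FF m b V t v‖ ≤ A := by
  by_cases h : b v ≤ t
  · rw [FF_zero T hV hv (Or.inl h), norm_zero]; exact hV.A0
  · unfold FF
    rw [if_neg h, sub_zero]
    obtain ⟨j₀, hj₀, hc⟩ := exists_cut (m v) (fun j => b (j :: v) ≤ t)
      (fun i j hij hj hb => (T.child_mono hv i j hij hj).2.trans hb)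
    have : (∑ j ∈ Finset.range (m v), if b (j :: v) ≤ t then V (j :: v) else 0) =
        ∑ j ∈ Finset.range j₀, V (j :: v) := by
      rw [← Finset.sum_filter]
      refine Finset.sum_congr ?_ fun _ _ => rfl
      ext j
      simp only [Finset.mem_filter, Finset.mem_range]
      constructor
      · rintro ⟨h1, h2⟩; exact (hc j h1).1 h2
      · intro h1
        exact ⟨by omega, (hc j (by omega)).2 h1⟩
    rw [this]
    exact hV.part v hv j₀ hj₀

lemma SS_step_norm (K : ℕ) (t : ℝ) :
    ‖SS m b D V (K + 1) t - SS m b D V K t‖ ≤ (D / 2 ^ (K + 1)) * A := by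
  have hD := T.Dpos
  rw [SS_step, norm_smul, Real.norm_of_nonneg (by positivity)]
  refine mul_le_mul_of_nonneg_left ?_ (by positivity)
  by_cases h : ∃ v ∈ lev m K, ¬ (b v ≤ t ∨ t ≤ a v)
  · obtain ⟨v, hv, hn⟩ := h
    push Not at hn
    rw [Finset.sum_eq_single_of_mem v hv]
    · exact FF_norm T hV ((mem_lev m K v).1 hv).1
    · intro w hw hne
      refine FF_zero T hV ((mem_lev m K w).1 hw).1 ?_
      rcases T.order K w v hw hv hne with h | h
      · left; linarith
      · right; linarith
  · push Not at h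
    rw [Finset.sum_eq_zero fun v hv => ?_, norm_zero]
    · exact hV.A0
    · exact FF_zero T hV ((mem_lev m K v).1 hv).1 (h v hv)

/-- The limit. -/
lemma exists_lim [CompleteSpace B] (t : ℝ) : ∃ θ : B, Tendsto (fun K => SS m b D V K t) atTop (𝓝 θ) ∧
    ∀ K, ‖θ - SS m b D V K t‖ ≤ (D / 2 ^ K) * A := by
  have h1 : ∀ n, dist (SS m b D V n t) (SS m b D V (n + 1) t) ≤ (D * A) / 2 / 2 ^ n := by
    intro n
    rw [dist_comm, dist_eq_norm]
    refine (SS_step_norm T hV n t).trans_eq ?_
    rw [pow_succ]; field_simp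
  obtain ⟨θ, hθ⟩ := cauchySeq_tendsto_of_complete (cauchySeq_of_le_geometric_two h1)
  refine ⟨θ, hθ, fun K => ?_⟩
  have := dist_le_of_le_geometric_two_of_tendsto h1 hθ K
  rw [dist_comm, dist_eq_norm] at this
  refine this.trans_eq ?_
  ring

omit hV in
/-- Partition points. -/
lemma pt_step {K : ℕ} {t : ℝ} (h : ∀ w ∈ lev m K, b w ≤ t ∨ t ≤ a w) :
    ∀ w ∈ lev m (K + 1), b w ≤ t ∨ t ≤ a w := by
  intro w hw
  rw [mem_lev] at hw
  obtain ⟨h1, h2⟩ := hw
  cases w with
  | nil => simp at h2
  | cons j w =>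
    have h3 := T.child_sub h1.2 h1.1
    rcases h w ((mem_lev m K w).2 ⟨h1.2, by simpa using h2⟩) with h4 | h4
    · left; linarith
    · right; linarith

lemma SS_const {K : ℕ} {t : ℝ} (h : ∀ w ∈ lev m K, b w ≤ t ∨ t ≤ a w) :
    ∀ L, K ≤ L → SS m b D V L t = SS m b D V K t := by
  intro L hL
  have key : (∀ w ∈ lev m L, b w ≤ t ∨ t ≤ a w) ∧ SS m b D V L t = SS m b D V K t := by
    induction L, hL using Nat.le_induction with
    | base => exact ⟨h, rfl⟩
    | succ L hL ih =>
      refine ⟨pt_step T ih.1, ?_⟩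
      rw [← ih.2, ← sub_eq_zero, SS_step, Finset.sum_eq_zero fun v hv => ?_, smul_zero]
      exact FF_zero T hV ((mem_lev m L v).1 hv).1 (ih.1 v hv)
  exact key.2

theorem exists_synth [CompleteSpace B] (hρ : Gauge ρ) : ∃ θ : ℝ → B,
    (∀ v, Ok m v → θ (b v) - θ (a v) = (D / 2 ^ v.length) • V v) ∧
    ∀ s t, 0 ≤ s → s ≤ t → t ≤ 1 → ‖θ t - θ s‖ ≤ 6 * A * ρ s t := by
  choose θ hθ1 hθ2 using exists_lim (D := D) T hV
  have hD := T.Dpos
  have hA := hV.A0
  refine ⟨θ, fun v hv => ?_, fun s t hs hst ht => ?_⟩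
  · have hvl : v ∈ lev m v.length := (mem_lev m _ v).2 ⟨hv, rfl⟩
    have hlt := (T.rng v hv).2.1
    have pa : ∀ w ∈ lev m v.length, b w ≤ a v ∨ a v ≤ a w := by
      intro w hw
      by_cases hne : w = v
      · right; rw [hne]
      · rcases T.order _ w v hw hvl hne with h | h
        · exact Or.inl h
        · right; linarith
    have pb : ∀ w ∈ lev m v.length, b w ≤ b v ∨ b v ≤ a w := by
      intro w hw
      by_cases hne : w = v
      · left; rw [hne]
      · rcases T.order _ w v hw hvl hne with h | h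
        · left; linarith
        · exact Or.inr h
    have e1 : θ (a v) = SS m b D V v.length (a v) :=
      tendsto_nhds_unique (hθ1 (a v)) (tendsto_atTop_of_eventually_const (i₀ := v.length)
        fun L hL => SS_const T hV pa L hL)
    have e2 : θ (b v) = SS m b D V v.length (b v) :=
      tendsto_nhds_unique (hθ1 (b v)) (tendsto_atTop_of_eventually_const (i₀ := v.length)
        fun L hL => SS_const T hV pb L hL)
    rw [e1, e2]
    unfold SS
    rw [← smul_sub, ← Finset.sum_sub_distrib, Finset.sum_eq_single_of_mem v hvl]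
    · rw [if_pos le_rfl, if_neg (by linarith), sub_zero]
    · intro w hw hne
      rcases T.order _ w v hw hvl hne with h | h
      · rw [if_pos (by linarith), if_pos h, sub_self]
      · have h3 := (T.rng w ((mem_lev m _ w).1 hw).1).2.1
        rw [if_neg (by linarith), if_neg (by linarith), sub_self]
  · rcases hst.eq_or_lt with rfl | hst
    · rw [sub_self, norm_zero]
      have h1 : 0 ≤ ρ s s := by
        by_contra hcon
        push Not at hcon
        have h2 := hρ.tri s s s hs le_rfl le_rfl ht
        linarith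
      positivity
    classical
    have hρ0 := hρ.pos s t hs hst ht
    have hex : ∃ k, ∃ w ∈ lev m k, s ≤ a w ∧ b w ≤ t := by
      by_contra hcon
      push Not at hcon
      have hbound : ∀ k : ℕ, ρ s t ≤ 4 * (D / 2 ^ k) := by
        intro k
        obtain ⟨w, hw, hwa, hwb⟩ := T.cover k s hs (by linarith)
        have hwo := ((mem_lev m _ w).1 hw)
        have hw3 := T.rng w hwo.1
        have hhi := T.hi w hwo.1
        rw [hwo.2] at hhi
        have hDk : 0 < D / 2 ^ k := by positivity
        by_cases htw : t ≤ b w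
        · have := hρ.mono (a w) s t (b w) hw3.1 hwa hst.le htw hw3.2.2
          linarith
        · push Not at htw
          obtain ⟨w', hw', hwa', hwb'⟩ := T.cover k (b w) (by linarith) (by linarith)
          have hwo' := ((mem_lev m _ w').1 hw')
          have hw3' := T.rng w' hwo'.1
          have hhi' := T.hi w' hwo'.1
          rw [hwo'.2] at hhi'
          have hne : w ≠ w' := by
            rintro rfl
            exact lt_irrefl _ hwb'
          have heq : a w' = b w := by
            rcases T.order k w w' hw hw' hne with h | h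
            · exact le_antisymm hwa' h
            · linarith
          have h4 : t < b w' := by
            by_contra hcon2
            push Not at hcon2
            exact absurd (hcon k w' hw' (by linarith)) (not_lt.2 hcon2)
          have h5 := hρ.tri s (b w) t hs hwb.le htw.le ht
          have h6 := hρ.mono (a w) s (b w) (b w) hw3.1 hwa hwb.le le_rfl hw3.2.2
          have h7 := hρ.mono (a w') (b w) t (b w') hw3'.1 hwa' htw.le h4.le hw3'.2.2
          linarith
      have hlim : Tendsto (fun k : ℕ => 4 * (D / 2 ^ k)) atTop (𝓝 0) := by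
        have h1 : Tendsto (fun k : ℕ => (1 / 2 : ℝ) ^ k) atTop (𝓝 0) :=
          tendsto_pow_atTop_nhds_zero_of_lt_one (by norm_num) (by norm_num)
        have h2 := h1.const_mul (4 * D)
        rw [mul_zero] at h2
        refine h2.congr fun k => ?_
        rw [one_div, inv_pow]; ring
      have := ge_of_tendsto' hlim hbound
      linarith
    obtain ⟨w, hw, hws, hwt⟩ := Nat.find_spec hex
    set k := Nat.find hex with hk
    have hwo := ((mem_lev m _ w).1 hw)
    have hlow := T.lo w hwo.1
    rw [hwo.2] at hlow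
    have hw3 := T.rng w hwo.1
    have hρk : D / 2 ^ k ≤ ρ s t :=
      hlow.trans (hρ.mono s (a w) (b w) t hs hws hw3.2.1.le hwt ht)
    have split : ∀ K, ‖θ t - θ s‖ ≤ ‖SS m b D V K t - SS m b D V K s‖ + 2 * ((D / 2 ^ K) * A) := by
      intro K
      have e : θ t - θ s = (SS m b D V K t - SS m b D V K s) + (θ t - SS m b D V K t) -
          (θ s - SS m b D V K s) := by abel
      rw [e]
      refine (norm_sub_le _ _).trans ?_
      have h1 := norm_add_le (SS m b D V K t - SS m b D V K s) (θ t - SS m b D V K t)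
      have h2 := hθ2 t K
      have h3 := hθ2 s K
      linarith
    rcases Nat.eq_zero_or_pos k with hk0 | hkpos
    · have h1 := split 0
      have h2 : ‖SS m b D V 0 t - SS m b D V 0 s‖ ≤ D * A := by
        unfold SS
        rw [pow_zero, div_one, ← smul_sub, norm_smul, Real.norm_of_nonneg hD.le]
        refine mul_le_mul_of_nonneg_left ?_ hD.le
        simp only [lev, Finset.sum_singleton]
        have h4 := hV.root
        split_ifs
        · rw [sub_self, norm_zero]; exact hA
        · rw [sub_zero]; exact h4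
        · rw [zero_sub, norm_neg]; exact h4
        · rw [sub_self, norm_zero]; exact hA
      rw [hk0, pow_zero, div_one] at hρk
      rw [pow_zero, div_one] at h1
      have h3 : A * D ≤ A * ρ s t := mul_le_mul_of_nonneg_left hρk hA
      nlinarith [mul_nonneg hA hρ0.le]
    · obtain ⟨k', hk'⟩ : ∃ k', k = k' + 1 := ⟨k - 1, by omega⟩
      have hno : ∀ w ∈ lev m k', ¬ (s ≤ a w ∧ b w ≤ t) := by
        intro w hw hcon
        exact Nat.find_min hex (m := k') (by omega) ⟨w, hw, hcon⟩
      have h1 := split k'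
      have h2 : ‖SS m b D V k' t - SS m b D V k' s‖ ≤ (D / 2 ^ k') * A := by
        unfold SS
        rw [← smul_sub, norm_smul, Real.norm_of_nonneg (by positivity)]
        refine mul_le_mul_of_nonneg_left ?_ (by positivity)
        rw [← Finset.sum_sub_distrib]
        have hz : ∀ w, ¬ (s < b w ∧ b w ≤ t) →
            ((if b w ≤ t then V w else 0) - if b w ≤ s then V w else 0) = 0 := by
          intro w hn
          by_cases c1 : b w ≤ s
          · rw [if_pos (c1.trans hst.le), if_pos c1, sub_self]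
          · push Not at c1
            have c2 : ¬ b w ≤ t := fun c2 => hn ⟨c1, c2⟩
            rw [if_neg c2, if_neg (not_le.2 c1), sub_self]
        by_cases hc : ∃ w ∈ lev m k', s < b w ∧ b w ≤ t
        · obtain ⟨w, hw, hw1, hw2⟩ := hc
          rw [Finset.sum_eq_single_of_mem w hw]
          · rw [if_pos hw2, if_neg (not_le.2 hw1), sub_zero]
            exact hV.norm_le T w ((mem_lev m _ w).1 hw).1
          · intro w' hw' hne
            refine hz w' fun hcon => ?_
            have h3 := hno w hw
            have h4 := hno w' hw'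
            push Not at h3 h4
            rcases T.order k' w w' hw hw' (Ne.symm hne) with h5 | h5
            · have := h4 (by linarith)
              linarith [hcon.2]
            · have := h3 (by linarith [hcon.1])
              linarith
        · rw [Finset.sum_eq_zero, norm_zero]
          · exact hA
          · intro w hw
            exact hz w fun hcon => hc ⟨w, hw, hcon⟩
      have h3 : D / 2 ^ k' = 2 * (D / 2 ^ k) := by
        rw [hk', pow_succ]; field_simp
      rw [h3] at h1 h2
      have h4 : (D / 2 ^ k) * A ≤ ρ s t * A := mul_le_mul_of_nonneg_right hρk hA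
      nlinarith

end synth

end Pool.Agent.R91.FA
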