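import Mathlib

/-!
Trees of words, and the synthesis of Lipschitz maps along a tree of nested intervals
(used for `MP_158617_an`).
-/

set_option autoImplicit false

namespace Pool.Agent.R91.FA

open Set Filter Topology

/-- Words of the tree with branching numbers `m`; the head is the last letter. -/
def Ok (m : List ℕ → ℕ) : List ℕ → Prop
  | [] => True
  | j :: v => j < m v ∧ Ok m v

/-- The words of a given length. -/
def lev (m : List ℕ → ℕ) : ℕ → Finset (List ℕ)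
  | 0 => {[]}
  | K + 1 => (lev m K).biUnion fun v => (Finset.range (m v)).image (fun j => j :: v)

lemma mem_lev (m : List ℕ → ℕ) : ∀ (K : ℕ) (v : List ℕ), v ∈ lev m K ↔ Ok m v ∧ v.length = K := by
  intro K
  induction K with
  | zero =>
    intro v
    simp only [lev, Finset.mem_singleton, List.length_eq_zero_iff]
    constructor
    · rintro rfl; exact ⟨trivial, rfl⟩
    · exact fun h => h.2
  | succ K ih =>
    intro v
    simp only [lev, Finset.mem_biUnion, Finset.mem_image, Finset.mem_range]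
    constructor
    · rintro ⟨u, hu, j, hj, rfl⟩
      rw [ih] at hu
      exact ⟨⟨hj, hu.1⟩, by simp [hu.2]⟩
    · rintro ⟨h1, h2⟩
      cases v with
      | nil => simp at h2
      | cons j u =>
        refine ⟨u, (ih u).2 ⟨h1.2, by simpa using h2⟩, j, h1.1, rfl⟩

lemma sum_lev_succ (m : List ℕ → ℕ) {M : Type*} [AddCommMonoid M] (f : List ℕ → M) (K : ℕ) :
    ∑ w ∈ lev m (K + 1), f w = ∑ v ∈ lev m K, ∑ j ∈ Finset.range (m v), f (j :: v) := by
  rw [lev, Finset.sum_biUnion]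
  · refine Finset.sum_congr rfl fun v _ => ?_
    rw [Finset.sum_image]
    intro i _ j _ h
    exact (List.cons.inj h).1
  · intro u _ v _ huv
    rw [Function.onFun, Finset.disjoint_left]
    intro w hw1 hw2
    obtain ⟨i, _, rfl⟩ := Finset.mem_image.1 hw1
    obtain ⟨j, _, h⟩ := Finset.mem_image.1 hw2
    exact huv (List.cons.inj h).2.symm

/-- A gauge on intervals. -/
structure Gauge (ρ : ℝ → ℝ → ℝ) : Prop where
  mono : ∀ s s' t' t, 0 ≤ s → s ≤ s' → s' ≤ t' → t' ≤ t → t ≤ 1 → ρ s' t' ≤ ρ s t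
  tri : ∀ s t u, 0 ≤ s → s ≤ t → t ≤ u → u ≤ 1 → ρ s u ≤ ρ s t + ρ t u
  pos : ∀ s t, 0 ≤ s → s < t → t ≤ 1 → 0 < ρ s t
  unif : ∀ ε, 0 < ε → ∃ η, 0 < η ∧ ∀ s t, 0 ≤ s → s ≤ t → t ≤ 1 → t - s < η → ρ s t < ε

/-- A tree of nested intervals adapted to a gauge. -/
structure ITree (ρ : ℝ → ℝ → ℝ) (D : ℝ) (m : List ℕ → ℕ) (a b : List ℕ → ℝ) : Prop where
  two : ∀ v, 2 ≤ m v
  Dpos : 0 < D
  a0 : a [] = 0
  b0 : b [] = 1
  rng : ∀ v, Ok m v → 0 ≤ a v ∧ a v < b v ∧ b v ≤ 1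
  lo : ∀ v, Ok m v → D / 2 ^ v.length ≤ ρ (a v) (b v)
  hi : ∀ v, Ok m v → ρ (a v) (b v) ≤ 2 * (D / 2 ^ v.length)
  first : ∀ v, Ok m v → a (0 :: v) = a v
  next : ∀ v, Ok m v → ∀ j, j + 1 < m v → b (j :: v) = a ((j + 1) :: v)
  last : ∀ v, Ok m v → b ((m v - 1) :: v) = b v

section subdivision

variable {ρ : ℝ → ℝ → ℝ} (h : Gauge ρ)
include h

lemma Gauge.self (s : ℝ) (hs : 0 ≤ s) (hs1 : s ≤ 1) : ρ s s ≤ 0 := by
  refine le_of_forall_pos_lt_add fun ε hε => ?_
  obtain ⟨η, hη, h1⟩ := h.unif ε hε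
  rw [zero_add]
  exact h1 s s hs le_rfl hs1 (by simpa using hη)

lemma Gauge.ivt {s t r : ℝ} (hs : 0 ≤ s) (hst : s < t) (ht : t ≤ 1) (hr : 0 < r)
    (hrt : r < ρ s t) : ∃ u, s < u ∧ u < t ∧ ρ s u = r := by
  have hc : ContinuousOn (fun u => ρ s u) (Icc s t) := by
    rw [Metric.continuousOn_iff]
    intro u hu ε hε
    obtain ⟨η, hη, h1⟩ := h.unif ε hε
    refine ⟨η, hη, fun v hv huv => ?_⟩
    rw [Real.dist_eq] at huv ⊢
    have hu0 : 0 ≤ u := hs.trans hu.1
    have hv0 : 0 ≤ v := hs.trans hv.1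
    have hu1 : u ≤ 1 := hu.2.trans ht
    have hv1 : v ≤ 1 := hv.2.trans ht
    rcases le_total u v with huv' | huv'
    · have h2 := h1 u v hu0 huv' hv1 (by rw [abs_of_nonneg (by linarith)] at huv; exact huv)
      have h3 := h.tri s u v hs hu.1 huv' hv1
      have h4 := h.mono s s u v hs le_rfl hu.1 huv' hv1
      rw [abs_lt]; constructor <;> linarith
    · have h2 := h1 v u hv0 huv' hu1 (by rw [abs_of_nonpos (by linarith)] at huv; linarith)
      have h3 := h.tri s v u hs hv.1 huv' hu1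
      have h4 := h.mono s s v u hs le_rfl hv.1 huv' hu1
      rw [abs_lt]; constructor <;> linarith
  have h0 := h.self s hs (hst.le.trans ht)
  have hmem : r ∈ Icc (ρ s s) (ρ s t) := ⟨by linarith, hrt.le⟩
  obtain ⟨u, hu, hur⟩ := intermediate_value_Icc hst.le hc hmem
  simp only at hur
  refine ⟨u, lt_of_le_of_ne hu.1 ?_, lt_of_le_of_ne hu.2 ?_, hur⟩
  · rintro rfl; linarith
  · rintro rfl; linarith

/-- Greedy subdivision. -/
lemma Gauge.sub_aux {r : ℝ} (hr : 0 < r) : ∀ (N : ℕ) (η : ℝ), 0 < η →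
    (∀ s t, 0 ≤ s → s ≤ t → t ≤ 1 → t - s < η → ρ s t < r) →
    ∀ s t, 0 ≤ s → s < t → t ≤ 1 → t - s < N * η → r ≤ ρ s t →
    ∃ (n : ℕ) (p : ℕ → ℝ), 1 ≤ n ∧ p 0 = s ∧ p n = t ∧
      ∀ i < n, p i < p (i + 1) ∧ r ≤ ρ (p i) (p (i + 1)) ∧ ρ (p i) (p (i + 1)) ≤ 2 * r := by
  intro N
  induction N with
  | zero =>
    intro η hη _ s t _ hst _ hlt _
    simp at hlt
    linarith
  | succ N ih =>
    intro η hη hun s t hs hst ht hlt hrst
    by_cases hle : ρ s t ≤ 2 * r
    · refine ⟨1, fun i => if i = 0 then s else t, le_rfl, by simp, by simp, ?_⟩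
      intro i hi
      have : i = 0 := by omega
      subst this
      simp [hst, hrst, hle]
    · push Not at hle
      obtain ⟨u, hsu, hut, hu⟩ := h.ivt hs hst ht hr (by linarith)
      have h1 : η ≤ u - s := by
        by_contra hcon
        push Not at hcon
        have := hun s u hs hsu.le (hut.le.trans ht) hcon
        linarith
      have h2 := h.tri s u t hs hsu.le hut.le ht
      obtain ⟨n, p, hn, hp0, hpn, hp⟩ := ih η hη hun u t (hs.trans hsu.le) hut ht
        (by push_cast at hlt; linarith) (by linarith)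
      refine ⟨n + 1, fun i => Nat.casesOn i s p, by omega, rfl, hpn, ?_⟩
      intro i hi
      cases i with
      | zero =>
        simp only [hp0]
        refine ⟨hsu, hu.ge, ?_⟩
        change ρ s u ≤ 2 * r
        rw [hu]; linarith
      | succ i => exact hp i (by omega)

lemma Gauge.sub {r : ℝ} (hr : 0 < r) {s t : ℝ} (hs : 0 ≤ s) (hst : s < t) (ht : t ≤ 1)
    (hrt : 2 * r ≤ ρ s t) :
    ∃ (n : ℕ) (p : ℕ → ℝ), 2 ≤ n ∧ p 0 = s ∧ p n = t ∧
      ∀ i < n, p i < p (i + 1) ∧ r ≤ ρ (p i) (p (i + 1)) ∧ ρ (p i) (p (i + 1)) ≤ 2 * r := by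
  obtain ⟨u, hsu, hut, hu⟩ := h.ivt hs hst ht hr (by linarith)
  have h2 := h.tri s u t hs hsu.le hut.le ht
  obtain ⟨η, hη, hun⟩ := h.unif r hr
  obtain ⟨N, hN⟩ := exists_nat_gt ((t - u) / η)
  rw [div_lt_iff₀ hη] at hN
  obtain ⟨n, p, hn, hp0, hpn, hp⟩ := h.sub_aux hr N η hη hun u t (hs.trans hsu.le) hut ht hN
    (by linarith)
  refine ⟨n + 1, fun i => Nat.casesOn i s p, by omega, rfl, hpn, ?_⟩
  intro i hi
  cases i with
  | zero =>
    simp only [hp0]
    refine ⟨hsu, hu.ge, ?_⟩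
    change ρ s u ≤ 2 * r
    rw [hu]; linarith
  | succ i => exact hp i (by omega)

end subdivision

section build

variable (ρ : ℝ → ℝ → ℝ) (D : ℝ)

/-- The property of a subdivision of the interval `st` at level `k`. -/
def IsSub (k : ℕ) (st : ℝ × ℝ) (q : ℕ × (ℕ → ℝ)) : Prop :=
  2 ≤ q.1 ∧ q.2 0 = st.1 ∧ q.2 q.1 = st.2 ∧ ∀ i < q.1, q.2 i < q.2 (i + 1) ∧
    D / 2 ^ (k + 1) ≤ ρ (q.2 i) (q.2 (i + 1)) ∧
    ρ (q.2 i) (q.2 (i + 1)) ≤ 2 * (D / 2 ^ (k + 1))

open Classical in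
/-- The chosen subdivision. -/
noncomputable def sb (k : ℕ) (st : ℝ × ℝ) : ℕ × (ℕ → ℝ) :=
  if h : ∃ q, IsSub ρ D k st q then h.choose else (2, fun _ => 0)

/-- The interval of a word. -/
noncomputable def iv : List ℕ → ℝ × ℝ
  | [] => (0, 1)
  | j :: v => ((sb ρ D v.length (iv v)).2 j, (sb ρ D v.length (iv v)).2 (j + 1))

/-- The branching number. -/
noncomputable def mm (v : List ℕ) : ℕ := (sb ρ D v.length (iv ρ D v)).1

lemma two_le_mm (v : List ℕ) : 2 ≤ mm ρ D v := by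
  unfold mm sb
  split_ifs with h
  · exact h.choose_spec.1
  · exact le_rfl

lemma mono_of_step {n : ℕ} {p : ℕ → ℝ} (hp : ∀ i < n, p i < p (i + 1)) :
    ∀ i j, i ≤ j → j ≤ n → p i ≤ p j := by
  intro i j hij hj
  induction j, hij using Nat.le_induction with
  | base => exact le_rfl
  | succ j hij ih => exact (ih (by omega)).trans (hp j (by omega)).le

theorem exists_tree (h : Gauge ρ) (hD : D = ρ 0 1) :
    ITree ρ D (mm ρ D) (fun v => (iv ρ D v).1) (fun v => (iv ρ D v).2) := by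
  have hD0 : 0 < D := hD ▸ h.pos 0 1 le_rfl one_pos le_rfl
  have key : ∀ v, Ok (mm ρ D) v → (0 ≤ (iv ρ D v).1 ∧ (iv ρ D v).1 < (iv ρ D v).2 ∧
      (iv ρ D v).2 ≤ 1) ∧ D / 2 ^ v.length ≤ ρ (iv ρ D v).1 (iv ρ D v).2 ∧
      ρ (iv ρ D v).1 (iv ρ D v).2 ≤ 2 * (D / 2 ^ v.length) := by
    intro v
    induction v with
    | nil =>
      intro _
      simp only [iv, List.length_nil, pow_zero, div_one]
      exact ⟨⟨le_rfl, one_pos, le_rfl⟩, hD.le, by linarith [hD]⟩
    | cons j v ih =>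
      rintro ⟨hj, hv⟩
      obtain ⟨⟨h1, h2, h3⟩, h4, h5⟩ := ih hv
      have hex : ∃ q, IsSub ρ D v.length (iv ρ D v) q := by
        obtain ⟨n, p, hn⟩ := h.sub (r := D / 2 ^ (v.length + 1)) (by positivity) h1 h2 h3 (by
          have : 2 * (D / 2 ^ (v.length + 1)) = D / 2 ^ v.length := by
            rw [pow_succ]; field_simp
          rw [this]; exact h4)
        exact ⟨(n, p), hn⟩
      have hs : IsSub ρ D v.length (iv ρ D v) (sb ρ D v.length (iv ρ D v)) := by
        unfold sb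
        rw [dif_pos hex]
        exact hex.choose_spec
      obtain ⟨g1, g2, g3, g4⟩ := hs
      have hj' : j < (sb ρ D v.length (iv ρ D v)).1 := hj
      have hm := mono_of_step fun i hi => (g4 i hi).1
      simp only [iv, List.length_cons]
      refine ⟨⟨?_, (g4 j hj').1, ?_⟩, (g4 j hj').2.1, (g4 j hj').2.2⟩
      · have := hm 0 j (Nat.zero_le _) hj'.le
        rw [g2] at this
        linarith
      · have := hm (j + 1) _ hj' le_rfl
        rw [g3] at this
        linarith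
  have key2 : ∀ v, Ok (mm ρ D) v → IsSub ρ D v.length (iv ρ D v) (sb ρ D v.length (iv ρ D v)) := by
    intro v hv
    obtain ⟨⟨h1, h2, h3⟩, h4, h5⟩ := key v hv
    have hex : ∃ q, IsSub ρ D v.length (iv ρ D v) q := by
      obtain ⟨n, p, hn⟩ := h.sub (r := D / 2 ^ (v.length + 1)) (by positivity) h1 h2 h3 (by
        have : 2 * (D / 2 ^ (v.length + 1)) = D / 2 ^ v.length := by
          rw [pow_succ]; field_simp
        rw [this]; exact h4)
      exact ⟨(n, p), hn⟩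
    unfold sb
    rw [dif_pos hex]
    exact hex.choose_spec
  refine ⟨two_le_mm ρ D, hD0, rfl, rfl, fun v hv => (key v hv).1, fun v hv => (key v hv).2.1,
    fun v hv => (key v hv).2.2, fun v hv => (key2 v hv).2.1, fun v hv j hj => rfl, fun v hv => ?_⟩
  have h2 := two_le_mm ρ D v
  have h3 := (key2 v hv).2.2.1
  simp only [iv]
  have : mm ρ D v - 1 + 1 = (sb ρ D v.length (iv ρ D v)).1 := by
    unfold mm at h2 ⊢
    omega
  rw [this]
  exact h3

end build

end Pool.Agent.R91.FA
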