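import Pool.Agent.R91.FA.Cells
import Pool.Agent.R91.FA.Synth

/-!
The vectors attached to a tree.
-/

set_option autoImplicit false
set_option linter.unusedSectionVars false

namespace Pool.Agent.R91.FA

open Set Filter Topology MeasureTheory

section alg

variable {M : Type*} [AddCommGroup M] [Module ℝ M] (m : List ℕ → ℕ) (χ e : List ℕ → M)

/-- The vectors `s`. -/
noncomputable def ss : List ℕ → M
  | [] => 0
  | _ :: v => if m v = 2 then χ (1 :: v) else 0

open Classical in
/-- The vectors `W`. -/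
noncomputable def WW (v : List ℕ) : M := if left m v then ss m χ v else χ v

open Classical in
/-- The vectors `A`. -/
noncomputable def AA : List ℕ → M
  | [] => e []
  | j :: v => if m v = 2 then
      (if left m v then (if j = 0 then AA v else AA v + (2 : ℝ) • ss m χ v - (2 : ℝ) • χ (1 :: v))
        else AA v)
      else ((2 : ℝ) / m v) • (AA v + WW m χ v) + e (j :: v) - (if j = 0 then 0 else e ((j - 1) :: v))

variable {m χ e}

lemma left_zero {v : List ℕ} (hl : left m v) : left m (0 :: v) := fun _ => ⟨hl, rfl⟩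

lemma not_left_one {v : List ℕ} (h2 : m v = 2) : ¬ left m (1 :: v) := fun h => by
  have := (h h2).2; omega

lemma not_left_of {v : List ℕ} (h2 : m v = 2) (hl : ¬ left m v) (j : ℕ) : ¬ left m (j :: v) :=
  fun h => hl (h h2).1

lemma left_of {v : List ℕ} (h2 : m v ≠ 2) (j : ℕ) : left m (j :: v) := fun h => absurd h h2

lemma AA_nil : AA m χ e [] = e [] := rfl

lemma AA_bad {v : List ℕ} (h2 : m v ≠ 2) (j : ℕ) : AA m χ e (j :: v) =
    ((2 : ℝ) / m v) • (AA m χ e v + WW m χ v) + e (j :: v) - (if j = 0 then 0 else e ((j - 1) :: v)) := by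
  rw [AA, if_neg h2]

lemma AA_left_zero {v : List ℕ} (h2 : m v = 2) (hl : left m v) :
    AA m χ e (0 :: v) = AA m χ e v := by
  rw [AA, if_pos h2, if_pos hl, if_pos rfl]

lemma AA_left_one {v : List ℕ} (h2 : m v = 2) (hl : left m v) :
    AA m χ e (1 :: v) = AA m χ e v + (2 : ℝ) • WW m χ v - (2 : ℝ) • χ (1 :: v) := by
  rw [AA, if_pos h2, if_pos hl, if_neg one_ne_zero, WW, if_pos hl]

lemma AA_nl {v : List ℕ} (h2 : m v = 2) (hl : ¬ left m v) (j : ℕ) :
    AA m χ e (j :: v) = AA m χ e v := by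
  rw [AA, if_pos h2, if_neg hl]

lemma WW_nil : WW m χ [] = 0 := by
  rw [WW, if_pos (show left m [] from trivial)]; rfl

lemma WW_bad {v : List ℕ} (h2 : m v ≠ 2) (j : ℕ) : WW m χ (j :: v) = 0 := by
  rw [WW, if_pos (left_of h2 j), ss, if_neg h2]

lemma WW_left_zero {v : List ℕ} (h2 : m v = 2) (hl : left m v) :
    WW m χ (0 :: v) = χ (1 :: v) := by
  rw [WW, if_pos (left_zero hl), ss, if_pos h2]

lemma WW_nl {v : List ℕ} (hl : ¬ left m v) : WW m χ v = χ v := by
  rw [WW, if_neg hl]

/-- The sum of the children, partial form, bad case. -/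
lemma part_bad {v : List ℕ} (h2 : m v ≠ 2) : ∀ j₀,
    ∑ j ∈ Finset.range j₀, (AA m χ e (j :: v) + WW m χ (j :: v)) =
      ((j₀ : ℝ) * (2 / m v)) • (AA m χ e v + WW m χ v) +
        (if j₀ = 0 then 0 else e ((j₀ - 1) :: v)) := by
  intro j₀
  induction j₀ with
  | zero => simp
  | succ j ih =>
    rw [Finset.sum_range_succ, ih, AA_bad h2, WW_bad h2]
    rw [if_neg (Nat.succ_ne_zero j), Nat.add_sub_cancel, Nat.cast_add, Nat.cast_one, add_mul,
      one_mul, add_smul]
    abel

lemma sum_good {v : List ℕ} (h2 : m v = 2)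
    (hχ : ¬ left m v → (2 : ℝ) • χ v = χ (0 :: v) + χ (1 :: v)) :
    (AA m χ e (0 :: v) + WW m χ (0 :: v)) + (AA m χ e (1 :: v) + WW m χ (1 :: v)) =
      (2 : ℝ) • (AA m χ e v + WW m χ v) := by
  by_cases hl : left m v
  · rw [AA_left_zero h2 hl, AA_left_one h2 hl, WW_left_zero h2 hl, WW_nl (not_left_one h2)]
    module
  · rw [AA_nl h2 hl, AA_nl h2 hl, WW_nl (not_left_of h2 hl 0), WW_nl (not_left_of h2 hl 1),
      WW_nl hl, smul_add, hχ hl]
    module

lemma mem_span (V : Submodule ℝ M)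
    (hU : ∀ v, Ok m v → AA m χ e v + WW m χ v ∈ V) :
    (∀ v, NL m v → χ v ∈ V) ∧ (∀ v, At m v → e v ∈ V) := by
  have key : ∀ v, Ok m v → AA m χ e v ∈ V ∧ WW m χ v ∈ V := by
    intro v
    induction v with
    | nil =>
      intro _
      have h1 := hU [] trivial
      rw [WW_nil, add_zero] at h1
      rw [WW_nil]
      exact ⟨h1, V.zero_mem⟩
    | cons j v ih =>
      rintro ⟨hj, hv⟩
      obtain ⟨h1, h2⟩ := ih hv
      have h3 := hU (j :: v) ⟨hj, hv⟩
      by_cases hb : m v = 2
      · by_cases hl : left m v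
        · have h4 := hU (0 :: v) ⟨by omega, hv⟩
          rw [AA_left_zero hb hl, WW_left_zero hb hl] at h4
          have h5 : χ (1 :: v) ∈ V := by
            have := V.sub_mem h4 h1
            rwa [add_sub_cancel_left] at this
          have hj' : j = 0 ∨ j = 1 := by omega
          rcases hj' with rfl | rfl
          · rw [AA_left_zero hb hl, WW_left_zero hb hl]; exact ⟨h1, h5⟩
          · rw [AA_left_one hb hl, WW_nl (not_left_one hb)]
            exact ⟨V.sub_mem (V.add_mem h1 (V.smul_mem _ h2)) (V.smul_mem _ h5), h5⟩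
        · rw [AA_nl hb hl] at h3 ⊢
          refine ⟨h1, ?_⟩
          have := V.sub_mem h3 h1
          rwa [add_sub_cancel_left] at this
      · rw [WW_bad hb, add_zero] at h3
        rw [WW_bad hb]
        exact ⟨h3, V.zero_mem⟩
  refine ⟨fun v hv => ?_, fun v hv => ?_⟩
  · have := (key v hv.1).2
    rwa [WW_nl hv.2] at this
  · cases v with
    | nil => exact (key [] trivial).1
    | cons j v =>
      obtain ⟨h2, hj, hv⟩ := hv
      have h1 := V.sum_mem (t := Finset.range (j + 1)) (f := fun j => AA m χ e (j :: v) + WW m χ (j :: v))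
        fun i hi => hU (i :: v) ⟨by have := Finset.mem_range.1 hi; omega, hv⟩
      rw [part_bad h2, if_neg (Nat.succ_ne_zero j), Nat.add_sub_cancel] at h1
      have := V.sub_mem h1 (V.smul_mem ((((j + 1 : ℕ) : ℝ)) * (2 / m v)) (hU v hv))
      rwa [add_sub_cancel_left] at this

end alg

section norms

variable {B : Type*} [NormedAddCommGroup B] [NormedSpace ℝ B] {m : List ℕ → ℕ} {χ e : List ℕ → B}

lemma norm_bounds (hm : ∀ v, 2 ≤ m v) (hχ : ∀ v, NL m v → ‖χ v‖ ≤ 1)
    (he : ∀ v, ‖e v‖ ≤ 1) : ∀ v, Ok m v →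
    (left m v → ‖AA m χ e v‖ ≤ 16) ∧ ‖AA m χ e v‖ ≤ 20 ∧ ‖WW m χ v‖ ≤ 1 := by
  intro v
  induction v with
  | nil =>
    intro _
    rw [AA_nil, WW_nil, norm_zero]
    have := he []
    exact ⟨fun _ => by linarith, by linarith, zero_le_one⟩
  | cons j v ih =>
    rintro ⟨hj, hv⟩
    obtain ⟨h1, h2, h3⟩ := ih hv
    by_cases hb : m v = 2
    · by_cases hl : left m v
      · have h4 := hχ _ (NL.one hv hb)
        have hj' : j = 0 ∨ j = 1 := by omega
        rcases hj' with rfl | rfl
        · rw [AA_left_zero hb hl, WW_left_zero hb hl]; exact ⟨fun _ => h1 hl, h2, h4⟩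
        · rw [AA_left_one hb hl, WW_nl (not_left_one hb)]
          refine ⟨fun h => absurd h (not_left_one hb), ?_, h4⟩
          refine (norm_sub_le _ _).trans ?_
          have h5 := norm_add_le (AA m χ e v) ((2 : ℝ) • WW m χ v)
          rw [norm_smul, Real.norm_ofNat] at h5 ⊢
          have h6 := h1 hl
          linarith
      · rw [AA_nl hb hl, WW_nl (not_left_of hb hl j)]
        exact ⟨fun h => absurd h (not_left_of hb hl j), h2, hχ _ ⟨⟨hj, hv⟩, not_left_of hb hl j⟩⟩
    · have key : ‖AA m χ e (j :: v)‖ ≤ 16 := by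
        rw [AA_bad hb]
        refine (norm_sub_le _ _).trans ?_
        have h4 := norm_add_le (((2 : ℝ) / m v) • (AA m χ e v + WW m χ v)) (e (j :: v))
        have h5 : ‖(if j = 0 then 0 else e ((j - 1) :: v) : B)‖ ≤ 1 := by
          split_ifs
          · rw [norm_zero]; exact zero_le_one
          · exact he _
        have h6 : ‖((2 : ℝ) / m v) • (AA m χ e v + WW m χ v)‖ ≤ 14 := by
          have hm3 : (3 : ℝ) ≤ m v := by
            have := hm v
            have : 3 ≤ m v := by omega
            exact_mod_cast this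
          rw [norm_smul, Real.norm_of_nonneg (by positivity)]
          have h7 : ‖AA m χ e v + WW m χ v‖ ≤ 21 := (norm_add_le _ _).trans (by linarith)
          have h8 : (2 : ℝ) / m v ≤ 2 / 3 := by
            exact div_le_div_of_nonneg_left (by norm_num) (by norm_num) hm3
          calc (2 : ℝ) / m v * ‖AA m χ e v + WW m χ v‖ ≤ 2 / 3 * 21 :=
                mul_le_mul h8 h7 (norm_nonneg _) (by norm_num)
            _ = 14 := by norm_num
        have h9 := he (j :: v)
        linarith
      rw [WW_bad hb, norm_zero]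
      exact ⟨fun _ => key, by linarith, zero_le_one⟩

lemma norm_U (hm : ∀ v, 2 ≤ m v) (hχ : ∀ v, NL m v → ‖χ v‖ ≤ 1)
    (he : ∀ v, ‖e v‖ ≤ 1) (v : List ℕ) (hv : Ok m v) : ‖AA m χ e v + WW m χ v‖ ≤ 21 := by
  obtain ⟨_, h2, h3⟩ := norm_bounds hm hχ he v hv
  exact (norm_add_le _ _).trans (by linarith)

theorem syn_U (hm : ∀ v, 2 ≤ m v) (hχ : ∀ v, NL m v → ‖χ v‖ ≤ 1)
    (he : ∀ v, ‖e v‖ ≤ 1)
    (hχ2 : ∀ v, NL m v → m v = 2 → (2 : ℝ) • χ v = χ (0 :: v) + χ (1 :: v))
    (he0 : ∀ v, Ok m v → m v ≠ 2 → e ((m v - 1) :: v) = 0) :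
    Syn m (fun v => AA m χ e v + WW m χ v) 43 := by
  have hsum : ∀ v, Ok m v → ∑ j ∈ Finset.range (m v), (AA m χ e (j :: v) + WW m χ (j :: v)) =
      (2 : ℝ) • (AA m χ e v + WW m χ v) := by
    intro v hv
    by_cases hb : m v = 2
    · rw [hb, Finset.sum_range_succ, Finset.sum_range_one]
      exact sum_good hb fun hl => hχ2 v ⟨hv, hl⟩ hb
    · have h2 := hm v
      rw [part_bad hb, if_neg (by omega), he0 v hv hb, add_zero]
      congr 1
      have : (m v : ℝ) ≠ 0 := by
        have : m v ≠ 0 := by omega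
        exact_mod_cast this
      field_simp
  refine ⟨by norm_num, ?_, hsum, ?_⟩
  · exact (norm_U hm hχ he [] trivial).trans (by norm_num)
  · intro v hv j₀ hj₀
    have hU := norm_U hm hχ he v hv
    by_cases hb : m v = 2
    · have h3 : j₀ = 0 ∨ j₀ = 1 ∨ j₀ = 2 := by omega
      rcases h3 with rfl | rfl | rfl
      · simp
      · rw [Finset.sum_range_one]
        exact (norm_U hm hχ he (0 :: v) ⟨by omega, hv⟩).trans (by norm_num)
      · have h4 := hsum v hv
        rw [hb] at h4
        rw [h4, norm_smul, Real.norm_ofNat]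
        linarith
    · rw [part_bad hb]
      refine (norm_add_le _ _).trans ?_
      have h5 : ‖(if j₀ = 0 then 0 else e ((j₀ - 1) :: v) : B)‖ ≤ 1 := by
        split_ifs
        · rw [norm_zero]; exact zero_le_one
        · exact he _
      have hm0 : (0 : ℝ) < m v := by
        have := hm v
        have : 0 < m v := by omega
        exact_mod_cast this
      have h6 : (j₀ : ℝ) * (2 / m v) ≤ 2 := by
        have : (j₀ : ℝ) ≤ m v := by exact_mod_cast hj₀
        rw [mul_div_assoc', div_le_iff₀ hm0]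
        linarith
      rw [norm_smul, Real.norm_of_nonneg (by positivity)]
      have h7 : (j₀ : ℝ) * (2 / m v) * ‖AA m χ e v + WW m χ v‖ ≤ 2 * 21 :=
        mul_le_mul h6 hU (norm_nonneg _) (by norm_num)
      linarith

end norms

end Pool.Agent.R91.FA
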